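import Pool.Agent.R747.TL.Defs
import Pool.Agent.W188.Ray.A4

set_option autoImplicit false

open Complex Filter Topology Set

namespace Pool.Agent.R747.TL

open H345 H345.Chi

lemma zl_cont : Continuous zl := by
  rw [continuous_iff_continuousAt]
  intro t
  unfold zl
  have h : (1 / 2 + (t : ℂ) * Complex.I) ≠ 1 := by
    intro h
    have := congrArg Complex.re h
    norm_num at this
  have h1 := (differentiableAt_riemannZeta h).continuousAt
  have h2 : ContinuousAt (fun t : ℝ => (1 / 2 + (t : ℂ) * Complex.I)) t := by fun_prop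
  exact ContinuousAt.comp (f := fun t : ℝ => (1 / 2 + (t : ℂ) * Complex.I)) (g := riemannZeta) h1 h2

lemma zl_conj (t : ℝ) : zl (-t) = (starRingEnd ℂ) (zl t) := by
  unfold zl
  have e : (1 / 2 + ((-t : ℝ) : ℂ) * Complex.I) =
      (starRingEnd ℂ) (1 / 2 + (t : ℂ) * Complex.I) := by
    simp [map_add, map_mul, map_ofNat]
  rw [e, riemannZeta_conj]

lemma zl_neg (t : ℝ) : ‖zl (-t)‖ = ‖zl t‖ := by
  rw [zl_conj, Complex.norm_conj]

lemma zl_abs (t : ℝ) : ‖zl t‖ = ‖zl |t|‖ := by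
  rcases abs_cases t with ⟨h, _⟩ | ⟨h, _⟩
  · rw [h]
  · rw [h, zl_neg]

lemma zl_growth (t : ℝ) : ‖zl t‖ ≤ 9 * (1 + |t|) := by
  have h := Pool.Agent.H388LH.zeta_growth' (s := 1 / 2 + (t : ℂ) * I) (by simp; norm_num) (by simp; norm_num)
  simpa [zl] using h

/-- `|e^{2π i x} - 1| ≥ 4 ‖x‖` -/
lemma exp_dist (x : ℝ) : 4 * dz x ≤ ‖cexp (((2 * Real.pi * x : ℝ) : ℂ) * I) - 1‖ := by
  have h1 : ‖cexp (((2 * Real.pi * x : ℝ) : ℂ) * I) - 1‖ = 2 * |Real.sin (Real.pi * x)| := by
    have := Complex.norm_exp_I_mul_ofReal_sub_one (2 * Real.pi * x)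
    rw [mul_comm (((2 * Real.pi * x : ℝ) : ℂ)) I, this, Real.norm_eq_abs, abs_mul, abs_two]
    congr 3
    ring
  rw [h1]
  set n : ℤ := round x with hn
  have h2 : |Real.sin (Real.pi * x)| = |Real.sin (Real.pi * (x - n))| := by
    have e : Real.pi * (x - n) = Real.pi * x - n * Real.pi := by ring
    rw [e, Real.sin_sub_int_mul_pi, abs_mul]
    simp
  rw [h2]
  have h3 : |x - n| ≤ 1 / 2 := by rw [hn]; exact abs_sub_round x
  have hp := Real.pi_pos
  have h4 : |Real.sin (Real.pi * (x - n))| = Real.sin (Real.pi * |x - n|) := by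
    rcases abs_cases (x - n) with ⟨h, h'⟩ | ⟨h, h'⟩
    · rw [h]
      apply abs_of_nonneg
      apply Real.sin_nonneg_of_nonneg_of_le_pi (by positivity)
      rw [h] at h3; nlinarith
    · rw [h]
      have e : Real.pi * -(x - n) = -(Real.pi * (x - n)) := by ring
      rw [e, Real.sin_neg]
      apply abs_of_nonpos
      apply Real.sin_nonpos_of_nonpos_of_neg_pi_le
      · nlinarith
      · rw [h] at h3; nlinarith
  rw [h4]
  have h5 := Real.mul_le_sin (x := Real.pi * |x - n|) (by positivity) (by nlinarith)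
  have h6 : 2 / Real.pi * (Real.pi * |x - n|) = 2 * |x - n| := by field_simp
  rw [h6] at h5
  unfold dz
  linarith

/-- the key inequality -/
theorem key (h : ℝ) : ∃ K : ℝ, 0 ≤ K ∧ ∀ t : ℝ, 1 ≤ t →
    dz (h * Real.log (t / (2 * Real.pi)) / (2 * Real.pi)) * ‖zl t‖ ≤ ‖zl (t + h) - zl t‖ / 2 + K := by
  obtain ⟨C, T0, hC, hT0, hX⟩ := XX_local
  set T1 : ℝ := max T0 (2 * |h| + 1) with hT1
  have hdz : ∀ x : ℝ, dz x ≤ 1 / 2 := fun x => abs_sub_round x
  have hdz0 : ∀ x : ℝ, 0 ≤ dz x := fun x => abs_nonneg _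
  have hT1' : 2 ≤ T1 := hT0.trans (le_max_left _ _)
  refine ⟨max (9 * (1 + T1)) (18 * (C * (1 + h ^ 2))), le_max_of_le_left (by linarith), ?_⟩
  intro t ht
  rcases le_total t T1 with htT | htT
  · have h1 := zl_growth t
    rw [abs_of_nonneg (by linarith)] at h1
    calc dz (h * Real.log (t / (2 * Real.pi)) / (2 * Real.pi)) * ‖zl t‖
        ≤ 1 * (9 * (1 + T1)) := by
          apply mul_le_mul ((hdz _).trans (by norm_num)) (h1.trans (by linarith)) (norm_nonneg _)
            (by norm_num)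
      _ ≤ ‖zl (t + h) - zl t‖ / 2 + max (9 * (1 + T1)) (18 * (C * (1 + h ^ 2))) := by
          have := le_max_left (9 * (1 + T1)) (18 * (C * (1 + h ^ 2)))
          have h2 := norm_nonneg (zl (t + h) - zl t)
          linarith
  · have ht0 : 0 < t := by linarith
    have hh : |h| ≤ t / 2 := by
      have := (le_max_right T0 (2 * |h| + 1)).trans htT
      linarith
    have hh1 : 1 ≤ t + h := by
      have := (le_max_right T0 (2 * |h| + 1)).trans htT
      have h2 := neg_abs_le h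
      have h3 := abs_nonneg h
      linarith
    have hx := hX t ((le_max_left _ _).trans htT) h hh
    set l : ℝ := Real.log (t / (2 * Real.pi)) with hl
    set a : ℂ := XX (1 / 2 + (t : ℂ) * I) with ha
    set b : ℂ := XX (1 / 2 + ((t + h : ℝ) : ℂ) * I) with hb
    have fa : (starRingEnd ℂ) (zl t) = a * zl t := Pool.Agent.W188.Ray.fe_line ht
    have fb : (starRingEnd ℂ) (zl (t + h)) = b * zl (t + h) := Pool.Agent.W188.Ray.fe_line hh1
    have na : ‖a‖ = 1 := norm_XX_half t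
    have nb : ‖b‖ = 1 := norm_XX_half (t + h)
    have e1 : (b - a) * zl t = (starRingEnd ℂ) (zl (t + h) - zl t) - b * (zl (t + h) - zl t) := by
      rw [map_sub, fa, fb]; ring
    have h1 : ‖b - a‖ * ‖zl t‖ ≤ 2 * ‖zl (t + h) - zl t‖ := by
      rw [← norm_mul, e1]
      refine (norm_sub_le _ _).trans ?_
      rw [Complex.norm_conj, norm_mul, nb, one_mul]
      linarith
    have h2 : ‖cexp (((h * l : ℝ) : ℂ) * I) - 1‖ ≤ ‖b - a‖ + C * (1 + h ^ 2) / t := by
      have e2 : a * (cexp (((h * l : ℝ) : ℂ) * I) - 1) =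
          (b - a) - (b - a * cexp (((h * l : ℝ) : ℂ) * I)) := by ring
      calc ‖cexp (((h * l : ℝ) : ℂ) * I) - 1‖ = ‖a * (cexp (((h * l : ℝ) : ℂ) * I) - 1)‖ := by
            rw [norm_mul, na, one_mul]
        _ ≤ ‖b - a‖ + ‖b - a * cexp (((h * l : ℝ) : ℂ) * I)‖ := by
            rw [e2]; exact norm_sub_le _ _
        _ ≤ _ := by linarith
    have h3 := exp_dist (h * l / (2 * Real.pi))
    have e3 : 2 * Real.pi * (h * l / (2 * Real.pi)) = h * l := by
      have := Real.pi_pos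
      field_simp
    rw [e3] at h3
    have h4 : 4 * dz (h * l / (2 * Real.pi)) * ‖zl t‖ ≤
        2 * ‖zl (t + h) - zl t‖ + C * (1 + h ^ 2) / t * ‖zl t‖ := by
      calc 4 * dz (h * l / (2 * Real.pi)) * ‖zl t‖ ≤ (‖b - a‖ + C * (1 + h ^ 2) / t) * ‖zl t‖ :=
            mul_le_mul_of_nonneg_right (h3.trans h2) (norm_nonneg _)
        _ = ‖b - a‖ * ‖zl t‖ + C * (1 + h ^ 2) / t * ‖zl t‖ := by ring
        _ ≤ _ := by linarith
    have h5 : C * (1 + h ^ 2) / t * ‖zl t‖ ≤ 18 * (C * (1 + h ^ 2)) := by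
      have h6 := zl_growth t
      rw [abs_of_pos ht0] at h6
      have h7 : ‖zl t‖ ≤ 18 * t := by linarith
      calc C * (1 + h ^ 2) / t * ‖zl t‖ ≤ C * (1 + h ^ 2) / t * (18 * t) :=
            mul_le_mul_of_nonneg_left h7 (by positivity)
        _ = _ := by field_simp
    have h8 := le_max_right (9 * (1 + T1)) (18 * (C * (1 + h ^ 2)))
    have h9 : 0 ≤ 18 * (C * (1 + h ^ 2)) := by positivity
    nlinarith

end Pool.Agent.R747.TL
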