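import Pool.Agent.R747.TL.A

set_option autoImplicit false

open Complex Filter Topology Set

namespace Pool.Agent.R747.TL

lemma dz_nonneg (x : ℝ) : 0 ≤ dz x := abs_nonneg _

lemma one_add_rpow_le {t h a : ℝ} (ha : 0 ≤ a) :
    (1 + |t + h|) ^ a ≤ (1 + |h|) ^ a * (1 + |t|) ^ a := by
  rw [← Real.mul_rpow (by positivity) (by positivity)]
  apply Real.rpow_le_rpow (by positivity) _ ha
  have := abs_add_le t h
  nlinarith [abs_nonneg t, abs_nonneg h]

lemma incr_add {h h' κ : ℝ} (hκ : 0 ≤ κ) (H : Increments h κ) (H' : Increments h' κ) :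
    Increments (h + h') κ := by
  intro ε hε
  obtain ⟨C, hC⟩ := H ε hε
  obtain ⟨C', hC'⟩ := H' ε hε
  have hC0 : 0 ≤ C := by
    have h1 := hC 0
    simp only [abs_zero, add_zero, Real.one_rpow, mul_one] at h1
    exact (norm_nonneg _).trans h1
  refine ⟨C * (1 + |h'|) ^ (κ + ε) + C', fun t => ?_⟩
  have e : zl (t + (h + h')) - zl t = (zl (t + h' + h) - zl (t + h')) + (zl (t + h') - zl t) := by
    rw [show t + (h + h') = t + h' + h by ring]; ring
  rw [e]
  refine (norm_add_le _ _).trans ?_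
  have h1 := hC (t + h')
  have h2 := hC' t
  have h3 := one_add_rpow_le (t := t) (h := h') (a := κ + ε) (by linarith)
  calc ‖zl (t + h' + h) - zl (t + h')‖ + ‖zl (t + h') - zl t‖
      ≤ C * (1 + |t + h'|) ^ (κ + ε) + C' * (1 + |t|) ^ (κ + ε) := add_le_add h1 h2
    _ ≤ C * ((1 + |h'|) ^ (κ + ε) * (1 + |t|) ^ (κ + ε)) + C' * (1 + |t|) ^ (κ + ε) := by gcongr
    _ = _ := by ring

lemma incr_neg {h κ : ℝ} (hκ : 0 ≤ κ) (H : Increments h κ) : Increments (-h) κ := by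
  intro ε hε
  obtain ⟨C, hC⟩ := H ε hε
  have hC0 : 0 ≤ C := by
    have h1 := hC 0
    simp only [abs_zero, add_zero, Real.one_rpow, mul_one] at h1
    exact (norm_nonneg _).trans h1
  refine ⟨C * (1 + |-h|) ^ (κ + ε), fun t => ?_⟩
  have h1 := hC (t + -h)
  have h3 := one_add_rpow_le (t := t) (h := -h) (a := κ + ε) (by linarith)
  rw [show t + -h + h = t by ring] at h1
  rw [norm_sub_rev]
  calc ‖zl t - zl (t + -h)‖ ≤ C * (1 + |t + -h|) ^ (κ + ε) := h1
    _ ≤ C * ((1 + |-h|) ^ (κ + ε) * (1 + |t|) ^ (κ + ε)) := by gcongr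
    _ = _ := by ring

lemma incr_zero (κ : ℝ) : Increments 0 κ := by
  intro ε _
  refine ⟨0, fun t => ?_⟩
  simp

/-- the subgroup of the lengths -/
def grp (κ : ℝ) (hκ : 0 ≤ κ) : AddSubgroup ℝ where
  carrier := {h | Increments h κ}
  add_mem' := fun ha hb => incr_add hκ ha hb
  zero_mem' := incr_zero κ
  neg_mem' := fun ha => incr_neg hκ ha

lemma exponent_incr {κ : ℝ} (hκ : 0 ≤ κ) (H : Exponent κ) (h : ℝ) : Increments h κ := by
  intro ε hε
  obtain ⟨C, hC⟩ := H ε hε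
  have hC0 : 0 ≤ C := by
    have h1 := hC 0
    simp only [abs_zero, add_zero, Real.one_rpow, mul_one] at h1
    exact (norm_nonneg _).trans h1
  refine ⟨C * (1 + |h|) ^ (κ + ε) + C, fun t => ?_⟩
  refine (norm_sub_le _ _).trans ?_
  have h3 := one_add_rpow_le (t := t) (h := h) (a := κ + ε) (by linarith)
  calc ‖zl (t + h)‖ + ‖zl t‖ ≤ C * (1 + |t + h|) ^ (κ + ε) + C * (1 + |t|) ^ (κ + ε) :=
        add_le_add (hC _) (hC _)
    _ ≤ C * ((1 + |h|) ^ (κ + ε) * (1 + |t|) ^ (κ + ε)) + C * (1 + |t|) ^ (κ + ε) := by gcongr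
    _ = _ := by ring

lemma exponent_means {κ : ℝ} (hκ : 0 ≤ κ) (H : Exponent κ) (h : ℝ) : Means h κ := by
  intro ε hε
  obtain ⟨C, hC⟩ := H ε hε
  have hC0 : 0 ≤ C := by
    have h1 := hC 0
    simp only [abs_zero, add_zero, Real.one_rpow, mul_one] at h1
    exact (norm_nonneg _).trans h1
  refine ⟨C * (1 + |h|) ^ (κ + ε) * |h|, fun t => ?_⟩
  have h1 := intervalIntegral.norm_integral_le_of_norm_le_const (a := t) (b := t + h) (f := zl)
    (C := C * ((1 + |h|) ^ (κ + ε) * (1 + |t|) ^ (κ + ε))) (by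
      intro u hu
      refine (hC u).trans ?_
      have h2 : |u| ≤ |t| + |h| := by
        have h3 : |u - t| ≤ |h| := by
          rw [Set.mem_uIoc] at hu
          rcases hu with ⟨h4, h5⟩ | ⟨h4, h5⟩
          · rw [abs_of_pos (by linarith)]
            exact le_trans (by linarith) (le_abs_self h)
          · rw [abs_of_nonpos (by linarith)]
            exact le_trans (by linarith) (neg_le_abs h)
        have h6 := abs_add_le t (u - t)
        rw [show t + (u - t) = u by ring] at h6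
        linarith
      have h7 : (1 + |u|) ^ (κ + ε) ≤ (1 + |h|) ^ (κ + ε) * (1 + |t|) ^ (κ + ε) := by
        rw [← Real.mul_rpow (by positivity) (by positivity)]
        apply Real.rpow_le_rpow (by positivity) _ (by linarith)
        nlinarith [abs_nonneg t, abs_nonneg h]
      gcongr)
  refine h1.trans (le_of_eq ?_)
  rw [show t + h - t = h by ring]
  ring

/-- one length: the bound at all points at which the phase is not aligned -/
theorem one_length {h κ : ℝ} (hκ : 0 ≤ κ) (H : Increments h κ) (ε : ℝ) (hε : 0 < ε) :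
    ∃ C : ℝ, 0 ≤ C ∧ ∀ t : ℝ, 1 ≤ t →
      dz (h * Real.log (t / (2 * Real.pi)) / (2 * Real.pi)) * ‖zl t‖ ≤ C * t ^ (κ + ε) := by
  obtain ⟨C, hC⟩ := H ε hε
  obtain ⟨K, hK0, hK⟩ := key h
  have hC0 : 0 ≤ C := by
    have h1 := hC 0
    simp only [abs_zero, add_zero, Real.one_rpow, mul_one] at h1
    exact (norm_nonneg _).trans h1
  refine ⟨C * 2 ^ (κ + ε) + K, by positivity, fun t ht => ?_⟩
  have h1 := hK t ht
  have h2 := hC t
  rw [abs_of_nonneg (by linarith : (0:ℝ) ≤ t)] at h2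
  have h3 : (1 + t) ^ (κ + ε) ≤ 2 ^ (κ + ε) * t ^ (κ + ε) := by
    rw [← Real.mul_rpow (by norm_num) (by linarith)]
    apply Real.rpow_le_rpow (by linarith) (by linarith) (by linarith)
  have h4 : 1 ≤ t ^ (κ + ε) := Real.one_le_rpow ht (by linarith)
  have h5 : ‖zl (t + h) - zl t‖ ≤ C * (2 ^ (κ + ε) * t ^ (κ + ε)) := h2.trans (by gcongr)
  have h6 : 0 ≤ ‖zl (t + h) - zl t‖ := norm_nonneg _
  calc dz (h * Real.log (t / (2 * Real.pi)) / (2 * Real.pi)) * ‖zl t‖
      ≤ ‖zl (t + h) - zl t‖ / 2 + K := h1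
    _ ≤ C * (2 ^ (κ + ε) * t ^ (κ + ε)) + K * t ^ (κ + ε) := by nlinarith
    _ = _ := by ring

/-- a bound for large `t` is a bound for all real `t` -/
lemma exponent_of_large {κ : ℝ} (hκ : 0 ≤ κ) (H : ∀ ε : ℝ, 0 < ε → ∃ C t0 : ℝ, ∀ t : ℝ, t0 ≤ t →
    ‖zl t‖ ≤ C * t ^ (κ + ε)) : Exponent κ := by
  intro ε hε
  obtain ⟨C, t0, h⟩ := H ε hε
  obtain ⟨M, hM⟩ := (isCompact_Icc (a := (0:ℝ)) (b := max t0 1)).exists_bound_of_continuousOn
    (f := zl) zl_cont.continuousOn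
  refine ⟨max (max C 0) (max M 0), fun t => ?_⟩
  rw [zl_abs]
  have h0 := abs_nonneg t
  have h1 : 1 ≤ (1 + |t|) ^ (κ + ε) := Real.one_le_rpow (by linarith) (by linarith)
  have hm : 0 ≤ max (max C 0) (max M 0) := (le_max_right C 0).trans (le_max_left _ _)
  rcases le_total |t| (max t0 1) with ht | ht
  · have h2 := hM |t| ⟨h0, ht⟩
    calc ‖zl |t|‖ ≤ M := h2
      _ ≤ max (max C 0) (max M 0) * 1 := by
        rw [mul_one]; exact (le_max_left M 0).trans (le_max_right _ _)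
      _ ≤ _ := mul_le_mul_of_nonneg_left h1 hm
  · have h2 := h |t| ((le_max_left _ _).trans ht)
    calc ‖zl |t|‖ ≤ C * |t| ^ (κ + ε) := h2
      _ ≤ max (max C 0) (max M 0) * (1 + |t|) ^ (κ + ε) := by
        apply mul_le_mul ((le_max_left C 0).trans (le_max_left _ _)) _ (by positivity) hm
        apply Real.rpow_le_rpow h0 (by linarith) (by linarith)

/-- two lengths -/
theorem two_lengths {h h' κ : ℝ} (hκ : 0 ≤ κ) (hh : h ≠ 0) (hα : ¬ ExpApprox (h' / h))
    (H : Increments h κ) (H' : Increments h' κ) : Exponent κ := by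
  apply exponent_of_large hκ
  intro ε hε
  obtain ⟨C1, hC1, h1⟩ := one_length hκ H (ε / 2) (by linarith)
  obtain ⟨C2, hC2, h2⟩ := one_length hκ H' (ε / 2) (by linarith)
  set α : ℝ := h' / h with hαd
  have hh0 : 0 < |h| := abs_pos.2 hh
  have hp := Real.pi_pos
  set c : ℝ := ε / 2 * (2 * Real.pi) / |h| with hc
  have hc0 : 0 < c := by positivity
  have hq : ∃ Q : ℕ, ∀ q : ℕ, Q ≤ q → ∀ p : ℤ, Real.exp (-(c * q)) < |(q : ℝ) * α - p| := by
    by_contra hcon
    push Not at hcon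
    exact hα ⟨c, hc0, hcon⟩
  obtain ⟨Q, hQ⟩ := hq
  set L : ℝ → ℝ := fun t => Real.log (t / (2 * Real.pi)) / (2 * Real.pi) with hL
  have hLt : Tendsto L atTop atTop := by
    apply Tendsto.atTop_div_const (by positivity)
    exact Real.tendsto_log_atTop.comp (tendsto_id.atTop_div_const (by positivity))
  obtain ⟨t1, ht1⟩ := (tendsto_atTop.1 hLt (((Q : ℝ) + 1) / |h|)).exists_forall_of_atTop
  refine ⟨(|α| * C1 + C2) * (Real.exp c * (2 * Real.pi) ^ (-(ε / 2))), max t1 1, fun t ht => ?_⟩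
  have ht1' : t1 ≤ t := (le_max_left _ _).trans ht
  have ht0 : 1 ≤ t := (le_max_right _ _).trans ht
  have hLb := ht1 t ht1'
  have a1 := h1 t ht0
  have a2 := h2 t ht0
  rw [mul_div_assoc] at a1 a2
  change dz (h * L t) * ‖zl t‖ ≤ _ at a1
  change dz (h' * L t) * ‖zl t‖ ≤ _ at a2
  -- the integers
  set k : ℤ := round (h * L t) with hk
  set k' : ℤ := round (h' * L t) with hk'
  have hLpos : 0 ≤ L t := le_trans (by positivity) hLb
  have hkabs : |(k : ℝ) - h * L t| ≤ 1 / 2 := by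
    rw [abs_sub_comm]; exact abs_sub_round _
  have hhL : (Q : ℝ) + 1 ≤ |h| * L t := by
    rw [div_le_iff₀ hh0] at hLb; linarith
  have habs : |h * L t| = |h| * L t := by rw [abs_mul, abs_of_nonneg hLpos]
  have hkL : |(k : ℝ)| ≤ |h| * L t + 1 := by
    have := abs_sub_abs_le_abs_sub (k : ℝ) (h * L t)
    rw [habs] at this
    linarith
  have hkQ : (Q : ℝ) ≤ |(k : ℝ)| := by
    have := abs_sub_abs_le_abs_sub (h * L t) (k : ℝ)
    rw [habs, abs_sub_comm] at this
    linarith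
  set q : ℕ := k.natAbs with hqd
  have hqk : (q : ℝ) = |(k : ℝ)| := by
    rw [hqd, Nat.cast_natAbs, Int.cast_abs]
  have hQq : Q ≤ q := by
    have : (Q : ℝ) ≤ q := by rw [hqk]; exact hkQ
    exact_mod_cast this
  have hlow : Real.exp (-(c * q)) < |α| * dz (h * L t) + dz (h' * L t) := by
    have e0 : ∃ p : ℤ, |(q : ℝ) * α - p| = |(k : ℝ) * α - k'| := by
      rcases abs_cases (k : ℝ) with ⟨e, _⟩ | ⟨e, _⟩
      · exact ⟨k', by rw [hqk, e]⟩
      · refine ⟨-k', ?_⟩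
        rw [hqk, e, show -(k : ℝ) * α - ((-k' : ℤ) : ℝ) = -((k : ℝ) * α - k') by push_cast; ring,
          abs_neg]
    obtain ⟨p, hp'⟩ := e0
    refine (hQ q hQq p).trans_le ?_
    rw [hp']
    have e1 : (k : ℝ) * α - k' = -(α * (h * L t - k)) + (h' * L t - k') := by
      rw [hαd]; field_simp; ring
    rw [e1]
    refine (abs_add_le _ _).trans ?_
    rw [abs_neg, abs_mul]
    exact le_refl _
  have hlow2 : Real.exp (-c) * (t / (2 * Real.pi)) ^ (-(ε / 2)) ≤ Real.exp (-(c * q)) := by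
    have ht' : 0 < t / (2 * Real.pi) := by positivity
    rw [Real.rpow_def_of_pos ht', ← Real.exp_add]
    apply Real.exp_le_exp.2
    have e2 : Real.log (t / (2 * Real.pi)) = 2 * Real.pi * L t := by
      simp only [hL]; field_simp
    rw [e2]
    have e3 : 2 * Real.pi * L t * -(ε / 2) = -(c * (|h| * L t)) := by
      rw [hc]; field_simp
    rw [e3]
    have : c * (q : ℝ) ≤ c * (|h| * L t + 1) := by
      apply mul_le_mul_of_nonneg_left _ hc0.le
      rw [hqk]; exact hkL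
    linarith
  have hz0 : 0 ≤ ‖zl t‖ := norm_nonneg _
  have ht00 : 0 < t := by linarith
  have hmain : Real.exp (-c) * (t / (2 * Real.pi)) ^ (-(ε / 2)) * ‖zl t‖ ≤
      (|α| * C1 + C2) * t ^ (κ + ε / 2) := by
    calc Real.exp (-c) * (t / (2 * Real.pi)) ^ (-(ε / 2)) * ‖zl t‖
        ≤ (|α| * dz (h * L t) + dz (h' * L t)) * ‖zl t‖ :=
          mul_le_mul_of_nonneg_right (hlow2.trans hlow.le) hz0
      _ = |α| * (dz (h * L t) * ‖zl t‖) + dz (h' * L t) * ‖zl t‖ := by ring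
      _ ≤ |α| * (C1 * t ^ (κ + ε / 2)) + C2 * t ^ (κ + ε / 2) := by
          apply add_le_add (mul_le_mul_of_nonneg_left a1 (abs_nonneg _)) a2
      _ = _ := by ring
  have e4 : (t / (2 * Real.pi)) ^ (-(ε / 2)) = t ^ (-(ε / 2)) * ((2 * Real.pi) ^ (-(ε / 2)))⁻¹ := by
    rw [Real.div_rpow ht00.le (by positivity)]; rfl
  have e5 : t ^ (κ + ε / 2) = t ^ (κ + ε) * t ^ (-(ε / 2)) := by
    rw [← Real.rpow_add ht00]; congr 1; ring
  have p1 : 0 < t ^ (-(ε / 2)) := Real.rpow_pos_of_pos ht00 _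
  have p2 : 0 < (2 * Real.pi) ^ (-(ε / 2)) := by positivity
  rw [e4, e5] at hmain
  have h7 : Real.exp (-c) * ((2 * Real.pi) ^ (-(ε / 2)))⁻¹ * ‖zl t‖ ≤
      (|α| * C1 + C2) * t ^ (κ + ε) := by
    have h8 : t ^ (-(ε / 2)) * (Real.exp (-c) * ((2 * Real.pi) ^ (-(ε / 2)))⁻¹ * ‖zl t‖) ≤
        t ^ (-(ε / 2)) * ((|α| * C1 + C2) * t ^ (κ + ε)) := by
      calc _ = Real.exp (-c) * (t ^ (-(ε / 2)) * ((2 * Real.pi) ^ (-(ε / 2)))⁻¹) * ‖zl t‖ := by ring
        _ ≤ _ := hmain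
        _ = _ := by ring
    exact le_of_mul_le_mul_left h8 p1
  have e6 : Real.exp c * Real.exp (-c) = 1 := by rw [← Real.exp_add]; simp
  calc ‖zl t‖ = (Real.exp c * Real.exp (-c)) * ((2 * Real.pi) ^ (-(ε / 2)) *
        ((2 * Real.pi) ^ (-(ε / 2)))⁻¹) * ‖zl t‖ := by
        rw [e6, mul_inv_cancel₀ p2.ne']; ring
    _ = Real.exp c * (2 * Real.pi) ^ (-(ε / 2)) *
        (Real.exp (-c) * ((2 * Real.pi) ^ (-(ε / 2)))⁻¹ * ‖zl t‖) := by ring
    _ ≤ Real.exp c * (2 * Real.pi) ^ (-(ε / 2)) * ((|α| * C1 + C2) * t ^ (κ + ε)) :=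
        mul_le_mul_of_nonneg_left h7 (by positivity)
    _ = _ := by ring

/-- irrational numbers which are not Liouville numbers are not exponentially approximable -/
theorem not_expApprox {α : ℝ} (h1 : Irrational α) (h2 : ¬ Liouville α) : ¬ ExpApprox α := by
  rintro ⟨c, hc, h⟩
  apply h2
  intro n
  have h3 : Tendsto (fun q : ℕ => (c * (q : ℝ)) ^ n * Real.exp (-(c * (q : ℝ)))) atTop (𝓝 0) :=
    (Real.tendsto_pow_mul_exp_neg_atTop_nhds_zero n).comp
      (tendsto_natCast_atTop_atTop.const_mul_atTop hc)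
  obtain ⟨Q, hQ⟩ := (h3.eventually_lt_const (by positivity : (0:ℝ) < c ^ n)).exists_forall_of_atTop
  obtain ⟨q, hq, p, hp⟩ := h (max Q 2)
  have hq2 : 2 ≤ q := (le_max_right _ _).trans hq
  have hq0 : (0 : ℝ) < q := by
    have : 0 < q := by omega
    exact_mod_cast this
  have h4 := hQ q ((le_max_left _ _).trans hq)
  have hcn : 0 < c ^ n := by positivity
  have h5 : (q : ℝ) ^ n * Real.exp (-(c * q)) < 1 := by
    rw [mul_pow, mul_assoc] at h4
    nlinarith
  refine ⟨p, q, by exact_mod_cast hq2, ?_, ?_⟩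
  · intro he
    apply h1
    exact ⟨(p : ℚ) / q, by push_cast; exact_mod_cast he.symm⟩
  · have e : α - (p : ℝ) / ((q : ℤ) : ℝ) = ((q : ℝ) * α - p) / q := by
      push_cast; field_simp
    rw [e, abs_div, abs_of_pos hq0, div_lt_div_iff₀ hq0 (by push_cast; positivity)]
    push_cast
    have hq1 : (1 : ℝ) ≤ q := by
      have : 1 ≤ q := by omega
      exact_mod_cast this
    calc |(q : ℝ) * α - p| * (q : ℝ) ^ n ≤ Real.exp (-(c * q)) * (q : ℝ) ^ n := by gcongr
      _ = (q : ℝ) ^ n * Real.exp (-(c * q)) := mul_comm _ _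
      _ < 1 := h5
      _ ≤ 1 * (q : ℝ) := by linarith

lemma sqrt_two_good : ¬ ExpApprox (√2 / 1) := by
  rw [div_one]
  apply not_expApprox irrational_sqrt_two
  intro h
  apply h.transcendental
  refine ⟨Polynomial.X ^ 2 - Polynomial.C 2, ?_, ?_⟩
  · intro h0
    have := congrArg (fun p => Polynomial.coeff p 2) h0
    simp at this
  · simp [map_ofNat]

theorem top_iff {κ : ℝ} (hκ : 0 ≤ κ) : grp κ hκ = ⊤ ↔ Exponent κ := by
  constructor
  · intro h
    have h1 : (1 : ℝ) ∈ grp κ hκ := by rw [h]; trivial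
    have h2 : (√2 : ℝ) ∈ grp κ hκ := by rw [h]; trivial
    exact two_lengths hκ one_ne_zero sqrt_two_good h1 h2
  · intro h
    rw [eq_top_iff]
    intro x _
    exact exponent_incr hκ h x

end Pool.Agent.R747.TL
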