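import Pool.Agent.R747.TL.B

set_option autoImplicit false

open Complex Filter Topology Set MeasureTheory
open scoped ENNReal NNReal

namespace Pool.Agent.R747.TL

/-- the set of the `h` with `|h L_j - integer| ≤ r_j` for all `j ≥ J` -/
def KK (L r : ℕ → ℝ) (J : ℕ) : Set ℝ := {h : ℝ | ∀ j : ℕ, J ≤ j → dz (h * L j) ≤ r j}

lemma dz_le_iff {x r : ℝ} (hx : dz x ≤ r) : ∃ m : ℤ, |x - m| ≤ r := ⟨round x, hx⟩

lemma continuous_dz : Continuous dz := by
  have e : dz = fun x : ℝ => ‖(x : UnitAddCircle)‖ := by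
    ext x
    rw [UnitAddCircle.norm_eq]
    rfl
  rw [e]
  exact continuous_norm.comp (AddCircle.continuous_mk' 1)

lemma isClosed_KK (L r : ℕ → ℝ) (J : ℕ) : IsClosed (KK L r J) := by
  have e : KK L r J = ⋂ j : ℕ, ⋂ _ : J ≤ j, {h : ℝ | dz (h * L j) ≤ r j} := by
    ext h; simp [KK]
  rw [e]
  refine isClosed_iInter fun j => isClosed_iInter fun _ => ?_
  exact isClosed_le (continuous_dz.comp (by fun_prop)) continuous_const

/-- dimension zero -/
theorem dimH_KK {L r : ℕ → ℝ} (hL : ∀ j, 1 ≤ L j) (hr : ∀ j, 0 ≤ r j)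
    (hlim : ∀ s : ℝ, 0 < s → Tendsto (fun j => L j * r j ^ s) atTop (𝓝 0)) (J : ℕ) (R : ℕ) :
    dimH (KK L r J ∩ Icc (-(R : ℝ)) R) = 0 := by
  have hr0 : Tendsto r atTop (𝓝 0) := by
    have h1 := hlim 1 one_pos
    simp only [Real.rpow_one] at h1
    refine squeeze_zero hr (fun j => ?_) h1
    nlinarith [hL j, hr j]
  -- every positive dimension
  have key : ∀ s : ℝ≥0, 0 < s → μH[(s : ℝ)] (KK L r J ∩ Icc (-(R : ℝ)) R) ≤ 0 := by
    intro s hs
    have hs' : (0 : ℝ) < s := by exact_mod_cast hs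
    set N : ℕ → ℤ := fun j => ⌈(R : ℝ) * L j + r j⌉ with hN
    have hN0 : ∀ j, 0 ≤ N j := fun j => by
      apply Int.ceil_nonneg
      have := hL j
      have := hr j
      positivity
    have h1 := Measure.hausdorffMeasure_le_liminf_sum (X := ℝ) (ι := fun j : ℕ => Finset.Icc (-(N j)) (N j))
      (s : ℝ) (KK L r J ∩ Icc (-(R : ℝ)) R) (l := atTop) (fun j => ENNReal.ofReal (2 * r j))
      (by
        have : Tendsto (fun j => ENNReal.ofReal (2 * r j)) atTop (𝓝 (ENNReal.ofReal (2 * 0))) :=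
          (ENNReal.continuous_ofReal.tendsto _).comp (hr0.const_mul 2)
        simpa using this)
      (fun j i => Metric.closedBall (((i : ℤ) : ℝ) / L j) (r j / L j))
      (by
        refine Eventually.of_forall fun j i => ?_
        have hLj : 0 < L j := by linarith [hL j]
        calc Metric.ediam (Metric.closedBall (((i : ℤ) : ℝ) / L j) (r j / L j))
            ≤ ENNReal.ofReal (2 * (r j / L j)) := by
              apply Metric.ediam_le_of_forall_dist_le 
              intro x hx y hy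
              have a1 := Metric.mem_closedBall.1 hx
              have a2 := Metric.mem_closedBall'.1 hy
              have := dist_triangle x (((i : ℤ) : ℝ) / L j) y
              linarith
          _ ≤ ENNReal.ofReal (2 * r j) := by
              apply ENNReal.ofReal_le_ofReal
              have : r j / L j ≤ r j := div_le_self (hr j) (hL j)
              linarith)
      (by
        filter_upwards [eventually_ge_atTop J] with j hj
        rintro h ⟨hh, hh1, hh2⟩
        have hLj : 0 < L j := by linarith [hL j]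
        obtain ⟨m, hm⟩ := dz_le_iff (hh j hj)
        have hmN : m ∈ Finset.Icc (-(N j)) (N j) := by
          rw [Finset.mem_Icc]
          have h3 : |h * L j| ≤ R * L j := by
            rw [abs_mul, abs_of_pos hLj]
            apply mul_le_mul_of_nonneg_right (abs_le.2 ⟨hh1, hh2⟩) hLj.le
          have h4 : |(m : ℝ)| ≤ R * L j + r j := by
            have := abs_sub_abs_le_abs_sub (m : ℝ) (h * L j)
            rw [abs_sub_comm] at this
            linarith
          have h5 : |(m : ℝ)| ≤ N j := h4.trans (Int.le_ceil _)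
          have h6 := abs_le.1 h5
          constructor
          · exact_mod_cast h6.1
          · exact_mod_cast h6.2
        refine mem_iUnion.2 ⟨⟨m, hmN⟩, ?_⟩
        rw [Metric.mem_closedBall, Real.dist_eq]
        have e : h - (m : ℝ) / L j = (h * L j - m) / L j := by field_simp
        rw [e, abs_div, abs_of_pos hLj]
        gcongr)
    refine h1.trans ?_
    have h2 : Tendsto (fun j => ENNReal.ofReal ((2 * (R + 3) + 1) * (L j * (2 ^ (s : ℝ) * r j ^ (s : ℝ)))))
        atTop (𝓝 0) := by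
      have h3 : Tendsto (fun j => (2 * ((R : ℝ) + 3) + 1) * (L j * (2 ^ (s : ℝ) * r j ^ (s : ℝ))))
          atTop (𝓝 ((2 * ((R : ℝ) + 3) + 1) * (2 ^ (s : ℝ) * 0))) := by
        have h4 := (hlim s hs').const_mul ((2 : ℝ) ^ (s : ℝ))
        have h5 := h4.const_mul (2 * ((R : ℝ) + 3) + 1)
        refine h5.congr fun j => ?_
        ring
      have h6 := (ENNReal.continuous_ofReal.tendsto _).comp h3
      rw [mul_zero, mul_zero, ENNReal.ofReal_zero] at h6
      exact h6
    rw [← h2.liminf_eq]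
    refine liminf_le_liminf ?_
    filter_upwards [(hr0.eventually_le_const (one_pos : (0:ℝ) < 1))] with j hj1
    have hLj := hL j
    have hLj0 : 0 < L j := by linarith
    have hrj := hr j
    have hdiam : ∀ i : Finset.Icc (-(N j)) (N j),
        Metric.ediam (Metric.closedBall (((i : ℤ) : ℝ) / L j) (r j / L j)) ^ (s : ℝ) ≤
          ENNReal.ofReal (2 ^ (s : ℝ) * r j ^ (s : ℝ)) := by
      intro i
      have h7 : Metric.ediam (Metric.closedBall (((i : ℤ) : ℝ) / L j) (r j / L j)) ≤ ENNReal.ofReal (2 * r j) := by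
        apply Metric.ediam_le_of_forall_dist_le
        intro x hx y hy
        have a1 := Metric.mem_closedBall.1 hx
        have a2 := Metric.mem_closedBall'.1 hy
        have := dist_triangle x (((i : ℤ) : ℝ) / L j) y
        have : r j / L j ≤ r j := div_le_self (hr j) (hL j)
        linarith
      calc Metric.ediam (Metric.closedBall (((i : ℤ) : ℝ) / L j) (r j / L j)) ^ (s : ℝ)
          ≤ ENNReal.ofReal (2 * r j) ^ (s : ℝ) := ENNReal.rpow_le_rpow h7 hs'.le
        _ = ENNReal.ofReal (2 ^ (s : ℝ) * r j ^ (s : ℝ)) := by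
            rw [ENNReal.ofReal_rpow_of_nonneg (by positivity) hs'.le, Real.mul_rpow (by norm_num) hrj]
    calc ∑ i : Finset.Icc (-(N j)) (N j), Metric.ediam (Metric.closedBall (((i : ℤ) : ℝ) / L j) (r j / L j)) ^ (s : ℝ)
        ≤ ∑ _i : Finset.Icc (-(N j)) (N j), ENNReal.ofReal (2 ^ (s : ℝ) * r j ^ (s : ℝ)) :=
          Finset.sum_le_sum fun i _ => hdiam i
      _ = (Finset.Icc (-(N j)) (N j)).card * ENNReal.ofReal (2 ^ (s : ℝ) * r j ^ (s : ℝ)) := by
          rw [Finset.sum_const, Finset.card_univ, Fintype.card_coe, nsmul_eq_mul]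
      _ ≤ ENNReal.ofReal ((2 * (R + 3) + 1) * (L j * (2 ^ (s : ℝ) * r j ^ (s : ℝ)))) := by
          rw [← ENNReal.ofReal_natCast, ← ENNReal.ofReal_mul (by positivity)]
          apply ENNReal.ofReal_le_ofReal
          have h8 : (((Finset.Icc (-(N j)) (N j)).card : ℕ) : ℝ) = 2 * (N j : ℝ) + 1 := by
            rw [Int.card_Icc]
            have : ((N j + 1 - -(N j)).toNat : ℤ) = N j + 1 - -(N j) := Int.toNat_of_nonneg (by
              have := hN0 j; omega)
            have h9 : (((N j + 1 - -(N j)).toNat : ℤ) : ℝ) = ((N j + 1 - -(N j) : ℤ) : ℝ) := by rw [this]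
            rw [Int.cast_natCast] at h9
            rw [h9]; push_cast; ring
          have h10 : (N j : ℝ) ≤ R * L j + r j + 1 := (Int.ceil_lt_add_one _).le
          have h11 : (((Finset.Icc (-(N j)) (N j)).card : ℕ) : ℝ) ≤ (2 * (R + 3) + 1) * L j := by
            rw [h8]
            have : (0 : ℝ) ≤ R := Nat.cast_nonneg R
            nlinarith
          have h12 : 0 ≤ (2 : ℝ) ^ (s : ℝ) * r j ^ (s : ℝ) := by positivity
          calc _ ≤ (2 * (R + 3) + 1) * L j * (2 ^ (s : ℝ) * r j ^ (s : ℝ)) :=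
                mul_le_mul_of_nonneg_right h11 h12
            _ = _ := by ring
  apply le_antisymm _ zero_le
  apply ENNReal.le_of_forall_pos_le_add
  intro ε hε _
  rw [zero_add]
  apply dimH_le_of_hausdorffMeasure_ne_top
  have := key ε hε
  rw [nonpos_iff_eq_zero] at this
  rw [this]
  exact ENNReal.zero_ne_top

/-- if the bound fails then the group of the lengths is small -/
theorem small_grp {κ : ℝ} (hκ : 0 ≤ κ) (hE : ¬ Exponent κ) :
    ∃ F : ℕ → Set ℝ, (∀ n, IsClosed (F n) ∧ dimH (F n) = 0) ∧ {h : ℝ | Increments h κ} ⊆ ⋃ n, F n := by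
  have h0 : ∃ ε : ℝ, 0 < ε ∧ ∀ C t0 : ℝ, ∃ t : ℝ, t0 ≤ t ∧ C * t ^ (κ + ε) < ‖zl t‖ := by
    by_contra hcon
    push Not at hcon
    apply hE
    apply exponent_of_large hκ
    intro ε hε
    obtain ⟨C, t0, h⟩ := hcon ε hε
    exact ⟨C, t0, h⟩
  obtain ⟨ε, hε, hbig⟩ := h0
  have hp := Real.pi_pos
  choose t ht1 ht2 using fun j : ℕ => hbig 1 (2 * Real.pi * Real.exp (2 * Real.pi * ((j : ℝ) + 1)))
  set L : ℕ → ℝ := fun j => Real.log (t j / (2 * Real.pi)) / (2 * Real.pi) with hL
  have htexp : ∀ j : ℕ, Real.exp (2 * Real.pi * ((j : ℝ) + 1)) ≤ t j / (2 * Real.pi) := by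
    intro j
    rw [le_div_iff₀ (by positivity)]
    linarith [ht1 j]
  have htpos : ∀ j, 0 < t j / (2 * Real.pi) := fun j => (Real.exp_pos _).trans_le (htexp j)
  have ht0 : ∀ j, 1 ≤ t j := by
    intro j
    have h1 := ht1 j
    have h2 : 1 ≤ Real.exp (2 * Real.pi * ((j : ℝ) + 1)) := Real.one_le_exp (by positivity)
    have h3 := Real.pi_gt_three
    nlinarith
  have hLj : ∀ j : ℕ, (j : ℝ) + 1 ≤ L j := by
    intro j
    simp only [hL]
    rw [le_div_iff₀ (by positivity)]
    have := Real.log_le_log (Real.exp_pos _) (htexp j)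
    rw [Real.log_exp] at this
    linarith
  have hLt : Tendsto L atTop atTop := tendsto_atTop_mono hLj
    (tendsto_atTop_add_const_right _ _ tendsto_natCast_atTop_atTop)
  have htL : ∀ j, t j = 2 * Real.pi * Real.exp (2 * Real.pi * L j) := by
    intro j
    have e : 2 * Real.pi * L j = Real.log (t j / (2 * Real.pi)) := by
      simp only [hL]; field_simp
    rw [e, Real.exp_log (htpos j)]
    field_simp
  set c : ℝ := Real.pi * ε / 2 with hc
  have hc0 : 0 < c := by positivity
  set r : ℕ → ℝ := fun j => Real.exp (-(c * L j)) with hr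
  have hlim : ∀ s : ℝ, 0 < s → Tendsto (fun j => L j * r j ^ s) atTop (𝓝 0) := by
    intro s hs
    have h1 : Tendsto (fun x : ℝ => x ^ 1 * Real.exp (-x)) atTop (𝓝 0) :=
      Real.tendsto_pow_mul_exp_neg_atTop_nhds_zero 1
    have h2 := h1.comp (hLt.const_mul_atTop (by positivity : 0 < c * s))
    have h3 := h2.const_mul ((c * s)⁻¹)
    rw [mul_zero] at h3
    refine h3.congr fun j => ?_
    simp only [Function.comp, pow_one, hr]
    rw [← Real.exp_mul]
    have e : -(c * L j) * s = -(c * s * L j) := by ring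
    rw [e]
    field_simp
  have hsub : {h : ℝ | Increments h κ} ⊆ ⋃ J : ℕ, ⋃ R : ℕ, (KK L r J ∩ Icc (-(R : ℝ)) R) := by
    intro h hh
    obtain ⟨C, hC0, hC⟩ := one_length hκ hh (ε / 2) (by linarith)
    obtain ⟨R, hR⟩ := exists_nat_ge |h|
    -- eventually C t^{-ε/2} ≤ r
    have hev : ∀ᶠ j in atTop, C * (t j) ^ (-(ε / 2)) ≤ r j := by
      have h4 : Tendsto (fun j => C * (2 * Real.pi) ^ (-(ε / 2)) * Real.exp (-(c * L j))) atTop (𝓝 0) := by
        have h5 : Tendsto (fun j => Real.exp (-(c * L j))) atTop (𝓝 0) :=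
          Real.tendsto_exp_neg_atTop_nhds_zero.comp (hLt.const_mul_atTop hc0)
        simpa using h5.const_mul (C * (2 * Real.pi) ^ (-(ε / 2)))
      filter_upwards [h4.eventually_le_const (one_pos : (0:ℝ) < 1)] with j hj
      have e1 : (t j) ^ (-(ε / 2)) = (2 * Real.pi) ^ (-(ε / 2)) * (Real.exp (-(c * L j)) *
          Real.exp (-(c * L j))) := by
        rw [htL j, Real.mul_rpow (by positivity) (Real.exp_pos _).le, ← Real.exp_mul, ← Real.exp_add]
        congr 2
        rw [hc]; ring
      rw [e1]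
      simp only [hr]
      have h6 : 0 < Real.exp (-(c * L j)) := Real.exp_pos _
      calc C * ((2 * Real.pi) ^ (-(ε / 2)) * (Real.exp (-(c * L j)) * Real.exp (-(c * L j))))
          = (C * (2 * Real.pi) ^ (-(ε / 2)) * Real.exp (-(c * L j))) * Real.exp (-(c * L j)) := by ring
        _ ≤ 1 * Real.exp (-(c * L j)) := mul_le_mul_of_nonneg_right hj h6.le
        _ = _ := one_mul _
    obtain ⟨J, hJ⟩ := hev.exists_forall_of_atTop
    refine mem_iUnion.2 ⟨J, mem_iUnion.2 ⟨R, ⟨fun j hj => ?_, ?_⟩⟩⟩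
    · refine le_trans ?_ (hJ j hj)
      have h1 := hC (t j) (ht0 j)
      have h2 := ht2 j
      rw [one_mul] at h2
      rw [mul_div_assoc] at h1
      change dz (h * L j) * ‖zl (t j)‖ ≤ _ at h1
      have tp : 0 < t j := by linarith [ht0 j]
      have h3 : dz (h * L j) * (t j) ^ (κ + ε) ≤ C * (t j) ^ (κ + ε / 2) :=
        (mul_le_mul_of_nonneg_left h2.le (dz_nonneg _)).trans h1
      have h4 : (t j) ^ (κ + ε / 2) = (t j) ^ (-(ε / 2)) * (t j) ^ (κ + ε) := by
        rw [← Real.rpow_add tp]; congr 1; ring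
      rw [h4, ← mul_assoc] at h3
      exact le_of_mul_le_mul_right h3 (Real.rpow_pos_of_pos tp _)
    · exact abs_le.1 hR
  refine ⟨fun n => KK L r n.unpair.1 ∩ Icc (-(n.unpair.2 : ℝ)) n.unpair.2, fun n => ⟨?_, ?_⟩, ?_⟩
  · exact (isClosed_KK L r _).inter isClosed_Icc
  · exact dimH_KK (fun j => by have := hLj j; have : (0:ℝ) ≤ j := Nat.cast_nonneg j; linarith)
      (fun j => (Real.exp_pos _).le) hlim _ _
  · refine hsub.trans ?_
    intro h hh
    simp only [mem_iUnion] at hh ⊢
    obtain ⟨J, R, hJR⟩ := hh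
    exact ⟨Nat.pair J R, by simpa using hJR⟩

/-- if the bound fails then the group of the lengths has dimension zero -/
theorem dimH_grp {κ : ℝ} (hκ : 0 ≤ κ) (hE : ¬ Exponent κ) :
    dimH {h : ℝ | Increments h κ} = 0 := by
  obtain ⟨F, hF, hsub⟩ := small_grp hκ hE
  apply le_antisymm _ zero_le
  refine (dimH_mono hsub).trans ?_
  rw [dimH_iUnion]
  refine iSup_le fun n => ?_
  rw [(hF n).2]

end Pool.Agent.R747.TL
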