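import Pool.Agent.R747.TL.A

set_option autoImplicit false

open Complex Filter Topology Set

namespace Pool.Agent.R747.TL

/-- the means, as a function of `s` -/
noncomputable def S (h : ℝ) (s : ℂ) : ℂ := ∫ u in (0:ℝ)..h, riemannZeta (s + (u : ℂ) * I)

lemma zeta_cont_at {s : ℂ} (hs : s.re < 1) : ContinuousAt riemannZeta s := by
  apply (differentiableAt_riemannZeta _).continuousAt
  intro h
  rw [h] at hs
  simp at hs

lemma zeta_diff_at {s : ℂ} (hs : s.re < 1) : DifferentiableAt ℂ riemannZeta s := by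
  apply differentiableAt_riemannZeta
  intro h
  rw [h] at hs
  simp at hs

lemma deriv_cont_on : ContinuousOn (deriv riemannZeta) {s : ℂ | s.re < 1} := by
  have ho : IsOpen {s : ℂ | s.re < 1} := isOpen_lt continuous_re continuous_const
  have hd : DifferentiableOn ℂ riemannZeta {s : ℂ | s.re < 1} := fun s hs =>
    (zeta_diff_at hs).differentiableWithinAt
  exact (hd.deriv ho).continuousOn

lemma S_hasDerivAt (h : ℝ) {s : ℂ} (hs : s.re < 1) :
    HasDerivAt (S h) (∫ u in (0:ℝ)..h, deriv riemannZeta (s + (u : ℂ) * I)) s := by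
  obtain ⟨r, hr0, hr⟩ : ∃ r : ℝ, 0 < r ∧ s.re + r < 1 := ⟨(1 - s.re) / 2, by linarith, by linarith⟩
  -- bound of the derivative on a compact set
  have hK : IsCompact ((fun p : ℂ × ℝ => p.1 + (p.2 : ℂ) * I) '' (Metric.closedBall s r ×ˢ uIcc 0 h)) := by
    apply IsCompact.image
    · exact (isCompact_closedBall s r).prod isCompact_uIcc
    · fun_prop
  obtain ⟨M, hM⟩ := hK.exists_bound_of_continuousOn (f := deriv riemannZeta) (by
    apply deriv_cont_on.mono
    rintro z ⟨⟨a, u⟩, ⟨ha, _⟩, rfl⟩
    simp only [mem_setOf_eq, add_re, mul_re, ofReal_re, I_re, mul_zero, ofReal_im, I_im, mul_one,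
      sub_self, add_zero]
    have h1 : |(a - s).re| ≤ r := (abs_re_le_norm _).trans (by simpa [dist_eq_norm] using ha)
    rw [sub_re] at h1
    linarith [(abs_le.1 h1).2])
  have hcont : ∀ a : ℂ, a.re < 1 → Continuous (fun u : ℝ => riemannZeta (a + (u : ℂ) * I)) := by
    intro a ha
    rw [continuous_iff_continuousAt]
    intro u
    have h1 : ContinuousAt riemannZeta (a + (u : ℂ) * I) := zeta_cont_at (by simpa using ha)
    exact ContinuousAt.comp (f := fun u : ℝ => a + (u : ℂ) * I) h1 (by fun_prop)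
  have hcont' : Continuous (fun u : ℝ => deriv riemannZeta (s + (u : ℂ) * I)) := by
    rw [continuous_iff_continuousAt]
    intro u
    have h1 : ContinuousAt (deriv riemannZeta) (s + (u : ℂ) * I) :=
      deriv_cont_on.continuousAt ((isOpen_lt continuous_re continuous_const).mem_nhds
        (by simpa using hs))
    exact ContinuousAt.comp (f := fun u : ℝ => s + (u : ℂ) * I) h1 (by fun_prop)
  have key := intervalIntegral.hasDerivAt_integral_of_dominated_loc_of_deriv_le
    (F := fun (a : ℂ) (u : ℝ) => riemannZeta (a + (u : ℂ) * I))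
    (F' := fun (a : ℂ) (u : ℝ) => deriv riemannZeta (a + (u : ℂ) * I))
    (x₀ := s) (a := 0) (b := h) (μ := MeasureTheory.volume) (bound := fun _ => M)
    (s := Metric.ball s r) (Metric.ball_mem_nhds s hr0)
    (by
      filter_upwards [Metric.ball_mem_nhds s hr0] with a ha
      apply (hcont a _).aestronglyMeasurable
      have h1 : |(a - s).re| ≤ r := (abs_re_le_norm _).trans (by
        rw [Metric.mem_ball, dist_eq_norm] at ha; exact ha.le)
      rw [sub_re] at h1
      linarith [(abs_le.1 h1).2])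
    ((hcont s hs).intervalIntegrable _ _)
    (hcont'.aestronglyMeasurable)
    (by
      refine Eventually.of_forall fun u hu a ha => ?_
      apply hM
      exact ⟨(a, u), ⟨Metric.ball_subset_closedBall ha, uIoc_subset_uIcc hu⟩, rfl⟩)
    (intervalIntegrable_const)
    (by
      refine Eventually.of_forall fun u hu a ha => ?_
      have h1 : |(a - s).re| ≤ r := (abs_re_le_norm _).trans (by
        rw [Metric.mem_ball, dist_eq_norm] at ha; exact ha.le)
      rw [sub_re] at h1
      have h2 : (a + (u : ℂ) * I).re < 1 := by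
        simp
        linarith [(abs_le.1 h1).2]
      have h3 := (zeta_diff_at h2).hasDerivAt
      exact h3.comp_add_const a ((u : ℂ) * I))
  exact key.2

lemma S_line (h t : ℝ) : S h (1 / 2 + (t : ℂ) * I) = ∫ u in t..(t + h), zl u := by
  unfold S
  have h1 : (fun u : ℝ => riemannZeta (1 / 2 + (t : ℂ) * I + (u : ℂ) * I)) = fun u : ℝ => zl (t + u) := by
    ext u
    unfold zl
    congr 1
    push_cast
    ring
  rw [h1, intervalIntegral.integral_comp_add_left (fun x => zl x)]
  simp

lemma S_deriv_line (h t : ℝ) :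
    ‖deriv (S h) (1 / 2 + (t : ℂ) * I)‖ = ‖zl (t + h) - zl t‖ := by
  have h1 := S_hasDerivAt h (s := 1 / 2 + (t : ℂ) * I) (by simp; norm_num)
  have h2 : HasDerivAt (fun x : ℝ => 1 / 2 + (x : ℂ) * I) I t := by
    simpa using ((ofRealCLM.hasDerivAt (x := t)).mul_const I).const_add (1 / 2 : ℂ)
  have h3 := h1.comp t h2
  have h4 : HasDerivAt (fun x : ℝ => ∫ u in x..(x + h), zl u) (zl (t + h) - zl t) t := by
    have hc := zl_cont
    have e : (fun x : ℝ => ∫ u in x..(x + h), zl u) =
        fun x : ℝ => (∫ u in (0:ℝ)..(x + h), zl u) - ∫ u in (0:ℝ)..x, zl u := by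
      ext x
      rw [intervalIntegral.integral_interval_sub_left (hc.intervalIntegrable _ _)
        (hc.intervalIntegrable _ _)]
    rw [e]
    have a1 := intervalIntegral.integral_hasDerivAt_right (hc.intervalIntegrable 0 t)
      (hc.stronglyMeasurableAtFilter _ _) hc.continuousAt
    have a2 := intervalIntegral.integral_hasDerivAt_right (hc.intervalIntegrable 0 (t + h))
      (hc.stronglyMeasurableAtFilter _ _) hc.continuousAt
    have a3 := (a2.comp_add_const t h)
    exact a3.sub a1
  have h5 : (S h ∘ fun x : ℝ => 1 / 2 + (x : ℂ) * I) = fun x : ℝ => ∫ u in x..(x + h), zl u := by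
    ext x
    exact S_line h x
  rw [h5] at h3
  have h6 := h3.unique h4
  rw [h1.deriv, ← h6, norm_mul, norm_I, mul_one]

lemma S_growth (h : ℝ) {s : ℂ} (h1 : 1 / 4 ≤ s.re) (h2 : s.re ≤ 3 / 4) :
    ‖S h s‖ ≤ 9 * |h| * (1 + |h|) * (1 + |s.im|) := by
  unfold S
  have h3 := intervalIntegral.norm_integral_le_of_norm_le_const (a := 0) (b := h)
    (f := fun u : ℝ => riemannZeta (s + (u : ℂ) * I)) (C := 9 * ((1 + |h|) * (1 + |s.im|))) (by
      intro u hu
      have h4 := Pool.Agent.H388LH.zeta_growth' (s := s + (u : ℂ) * I) (by simpa using h1)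
        (by simpa using h2)
      refine h4.trans ?_
      have e : (s + (u : ℂ) * I).im = s.im + u := by simp
      rw [e]
      have h5 : |u| ≤ |h| := by
        rw [Set.mem_uIoc] at hu
        rcases hu with ⟨h6, h7⟩ | ⟨h6, h7⟩
        · rw [abs_of_pos h6]; exact h7.trans (le_abs_self h)
        · rw [abs_of_nonpos h7]; exact le_trans (by linarith) (neg_le_abs h)
      have h6 := abs_add_le s.im u
      nlinarith [abs_nonneg s.im, abs_nonneg h])
  refine h3.trans (le_of_eq ?_)
  rw [sub_zero]; ring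

lemma gauss_bound (n : ℕ) (y : ℝ) : (1 + |y|) ^ n * Real.exp (-(y ^ 2)) ≤ n.factorial * Real.exp 2 := by
  have h1 := Real.pow_div_factorial_le_exp (1 + |y|) (by positivity) n
  rw [div_le_iff₀ (by positivity)] at h1
  calc (1 + |y|) ^ n * Real.exp (-(y ^ 2)) ≤ (Real.exp (1 + |y|) * n.factorial) * Real.exp (-(y ^ 2)) := by
        gcongr
    _ = n.factorial * Real.exp (1 + |y| + -(y ^ 2)) := by rw [Real.exp_add (1 + |y|)]; ring
    _ ≤ n.factorial * Real.exp 2 := by
        gcongr
        have := sq_abs y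
        nlinarith [sq_nonneg (|y| - 1 / 2)]

lemma norm_gauss (T : ℝ) (s : ℂ) : ‖cexp ((s - (1 / 2 + (T : ℂ) * I)) ^ 2)‖ =
    Real.exp ((s.re - 1 / 2) ^ 2 - (s.im - T) ^ 2) := by
  rw [Complex.norm_exp]
  congr 1
  rw [sq, mul_re]
  simp
  ring

theorem means_incr {h κ : ℝ} (hκ : 0 ≤ κ) (H : Means h κ) : Increments h κ := by
  intro ε hε
  obtain ⟨C0, hC0'⟩ := H (ε / 2) (by linarith)
  have hC0 : ∀ t : ℝ, ‖∫ u in t..(t + h), zl u‖ ≤ max C0 0 * (1 + |t|) ^ (κ + ε / 2) := fun t =>
    (hC0' t).trans (by gcongr; exact le_max_left _ _)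
  set C1 := max C0 0 with hC1
  have hC1' : 0 ≤ C1 := le_max_right _ _
  set a : ℝ := κ + ε / 2 with ha
  have ha0 : 0 < a := by positivity
  obtain ⟨n, hn⟩ := exists_nat_ge (a + 1)
  set M : ℝ := n.factorial * Real.exp 2 with hM
  have hM0 : 0 < M := by positivity
  have hn1 : 1 ≤ n := by
    have : (1:ℝ) ≤ n := by linarith
    exact_mod_cast this
  set C3 : ℝ := (C1 + 18 * |h| * (1 + |h|)) * M * 2 + 1 with hC3
  have hC30 : 0 < C3 := by positivity
  set δ : ℝ := min (ε / 8) (1 / 8) with hδ
  have hδ0 : 0 < δ := by positivity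
  have hδ1 : δ ≤ 1 / 8 := min_le_right _ _
  have hδ2 : 4 * δ ≤ ε / 2 := by linarith [min_le_left (ε / 8) (1 / 8)]
  refine ⟨Real.exp 1 * C3 / δ, fun T => ?_⟩
  have hT1 : 1 ≤ 1 + |T| := by linarith [abs_nonneg T]
  set G : ℂ → ℂ := fun s => S h s * cexp ((s - (1 / 2 + (T : ℂ) * I)) ^ 2) with hG
  set A : ℝ := C3 * (1 + |T|) ^ a with hA
  set B : ℝ := C3 * (1 + |T|) ^ (a + 1) with hB
  have hA0 : 0 < A := by positivity
  have hB0 : 0 < B := by positivity
  have hy1 : ∀ t : ℝ, 1 + |t| ≤ (1 + |T|) * (1 + |t - T|) := by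
    intro t
    have := abs_add_le (t - T) T
    rw [sub_add_cancel] at this
    nlinarith [abs_nonneg T, abs_nonneg (t - T)]
  have hpow : ∀ (b y : ℝ), b ≤ n → (1 + |y|) ^ b * Real.exp (-(y ^ 2)) ≤ M := by
    intro b y hb
    refine le_trans ?_ (gauss_bound n y)
    gcongr
    rw [← Real.rpow_natCast]
    exact Real.rpow_le_rpow_of_exponent_le (by linarith [abs_nonneg y]) hb
  have hdiff : ∀ s : ℂ, s.re < 1 → DifferentiableAt ℂ G s := by
    intro s hs
    exact ((S_hasDerivAt h hs).differentiableAt).mul (by fun_prop)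
  -- bound in the whole strip
  have hbd : ∀ s : ℂ, 1 / 4 ≤ s.re → s.re ≤ 3 / 4 → ‖G s‖ ≤ B := by
    intro s h1 h2
    simp only [hG]
    rw [norm_mul, norm_gauss]
    have h3 := S_growth h h1 h2
    have h4 : Real.exp ((s.re - 1 / 2) ^ 2 - (s.im - T) ^ 2) ≤ 2 * Real.exp (-((s.im - T) ^ 2)) := by
      rw [sub_eq_add_neg, Real.exp_add]
      gcongr
      have h5 : (s.re - 1 / 2) ^ 2 ≤ 1 / 2 := by nlinarith
      have h6 : Real.exp (1 / 2) ≤ 2 := by
        have h7 : Real.exp (1 / 2) ^ 2 = Real.exp 1 := by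
          rw [← Real.exp_nat_mul]; norm_num
        have h8 := Real.exp_one_lt_d9
        nlinarith [Real.exp_pos (1 / 2)]
      exact (Real.exp_le_exp.2 h5).trans h6
    have h5 := hpow 1 (s.im - T) (by linarith)
    rw [Real.rpow_one] at h5
    have h6 : (1 + |T|) ≤ (1 + |T|) ^ (a + 1) := by
      conv_lhs => rw [← Real.rpow_one (1 + |T|)]
      exact Real.rpow_le_rpow_of_exponent_le hT1 (by linarith)
    calc ‖S h s‖ * Real.exp ((s.re - 1 / 2) ^ 2 - (s.im - T) ^ 2)
        ≤ (9 * |h| * (1 + |h|) * ((1 + |T|) * (1 + |s.im - T|))) *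
            (2 * Real.exp (-((s.im - T) ^ 2))) := by
          apply mul_le_mul _ h4 (Real.exp_pos _).le (by positivity)
          refine h3.trans ?_
          gcongr
          exact hy1 _
      _ = 18 * |h| * (1 + |h|) * (1 + |T|) * ((1 + |s.im - T|) * Real.exp (-((s.im - T) ^ 2))) := by ring
      _ ≤ 18 * |h| * (1 + |h|) * (1 + |T|) ^ (a + 1) * M := by gcongr
      _ ≤ C3 * (1 + |T|) ^ (a + 1) := by
          have h7 : 18 * |h| * (1 + |h|) * M ≤ C3 := by
            rw [hC3]
            have : 0 ≤ C1 * M := by positivity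
            have h8 : 0 ≤ 18 * |h| * (1 + |h|) * M := by positivity
            linarith
          have h9 : 0 ≤ (1 + |T|) ^ (a + 1) := by positivity
          nlinarith
  -- bound on the line
  have hline : ∀ s : ℂ, s.re = 1 / 2 → ‖G s‖ ≤ A := by
    intro s hs
    have e : s = 1 / 2 + (s.im : ℂ) * I := by
      apply Complex.ext <;> simp [hs]
    simp only [hG]
    rw [norm_mul, norm_gauss, hs]
    have h1 : ‖S h s‖ ≤ C1 * (1 + |s.im|) ^ a := by
      rw [e, S_line]
      simpa using hC0 s.im
    have h5 := hpow a (s.im - T) (by linarith)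
    have h6 : (1 + |s.im|) ^ a ≤ (1 + |T|) ^ a * (1 + |s.im - T|) ^ a := by
      rw [← Real.mul_rpow (by positivity) (by positivity)]
      exact Real.rpow_le_rpow (by positivity) (hy1 _) ha0.le
    calc ‖S h s‖ * Real.exp ((1 / 2 - 1 / 2) ^ 2 - (s.im - T) ^ 2)
        ≤ (C1 * ((1 + |T|) ^ a * (1 + |s.im - T|) ^ a)) * Real.exp (-((s.im - T) ^ 2)) := by
          have e2 : ((1:ℝ) / 2 - 1 / 2) ^ 2 - (s.im - T) ^ 2 = -((s.im - T) ^ 2) := by ring
          rw [e2]
          gcongr
          exact h1.trans (by gcongr)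
      _ = C1 * (1 + |T|) ^ a * ((1 + |s.im - T|) ^ a * Real.exp (-((s.im - T) ^ 2))) := by ring
      _ ≤ C1 * (1 + |T|) ^ a * M := by gcongr
      _ ≤ C3 * (1 + |T|) ^ a := by
          have h7 : C1 * M ≤ C3 := by
            rw [hC3]
            have : 0 ≤ 18 * |h| * (1 + |h|) * M := by positivity
            have h8 : 0 ≤ C1 * M := by positivity
            linarith
          have h9 : 0 ≤ (1 + |T|) ^ a := by positivity
          nlinarith
  -- interpolation
  have hAB : ∀ x : ℝ, 0 ≤ x → x ≤ δ → A ^ (1 - 4 * x) * B ^ (4 * x) ≤ C3 * (1 + |T|) ^ (κ + ε) := by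
    intro x hx0 hx1
    have e : A ^ (1 - 4 * x) * B ^ (4 * x) = C3 * (1 + |T|) ^ (a + 4 * x) := by
      rw [hA, hB, Real.mul_rpow hC30.le (by positivity), Real.mul_rpow hC30.le (by positivity),
        ← Real.rpow_mul (by positivity), ← Real.rpow_mul (by positivity)]
      have e1 : C3 ^ (1 - 4 * x) * C3 ^ (4 * x) = C3 := by
        rw [← Real.rpow_add hC30]; simp
      have e2 : (1 + |T|) ^ (a * (1 - 4 * x)) * (1 + |T|) ^ ((a + 1) * (4 * x)) =
          (1 + |T|) ^ (a + 4 * x) := by
        rw [← Real.rpow_add (by linarith)]; congr 1; ring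
      calc _ = (C3 ^ (1 - 4 * x) * C3 ^ (4 * x)) *
            ((1 + |T|) ^ (a * (1 - 4 * x)) * (1 + |T|) ^ ((a + 1) * (4 * x))) := by ring
        _ = _ := by rw [e1, e2]
    rw [e]
    apply mul_le_mul_of_nonneg_left _ hC30.le
    apply Real.rpow_le_rpow_of_exponent_le hT1
    rw [ha]; linarith
  have hnear : ∀ s : ℂ, ‖s - (1 / 2 + (T : ℂ) * I)‖ ≤ δ → ‖G s‖ ≤ C3 * (1 + |T|) ^ (κ + ε) := by
    intro s hs
    have h1 : |s.re - 1 / 2| ≤ δ := by
      have := (abs_re_le_norm (s - (1 / 2 + (T : ℂ) * I))).trans hs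
      simpa using this
    have h1' := abs_le.1 h1
    rcases le_total (1 / 2) s.re with hr | hr
    · have h2 := Complex.HadamardThreeLines.norm_le_interp_of_mem_verticalClosedStrip' (f := G)
        (z := s) (a := A) (b := B) (l := 1 / 2) (u := 3 / 4) (by norm_num)
        ⟨hr, by linarith⟩
        (by
          apply DifferentiableOn.diffContOnCl
          intro z hz
          apply (hdiff z _).differentiableWithinAt
          have h3 : closure (Complex.HadamardThreeLines.verticalStrip (1 / 2) (3 / 4)) ⊆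
              Complex.HadamardThreeLines.verticalClosedStrip (1 / 2) (3 / 4) := by
            apply closure_minimal
            · intro w hw; exact ⟨hw.1.le, hw.2.le⟩
            · exact isClosed_Icc.preimage continuous_re
          linarith [(h3 hz).2])
        (by
          refine ⟨B, ?_⟩
          rintro _ ⟨z, hz, rfl⟩
          exact hbd z (by linarith [hz.1]) hz.2)
        (fun z hz => hline z hz) (fun z hz => hbd z (by rw [show z.re = 3 / 4 from hz]; norm_num)
          (by rw [show z.re = 3 / 4 from hz]))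
      refine h2.trans ?_
      have e : (s.re - 1 / 2) / (3 / 4 - 1 / 2) = 4 * (s.re - 1 / 2) := by ring
      rw [e]
      exact hAB _ (by linarith) h1'.2
    · have h2 := Complex.HadamardThreeLines.norm_le_interp_of_mem_verticalClosedStrip' (f := G)
        (z := s) (a := B) (b := A) (l := 1 / 4) (u := 1 / 2) (by norm_num)
        ⟨by linarith, hr⟩
        (by
          apply DifferentiableOn.diffContOnCl
          intro z hz
          apply (hdiff z _).differentiableWithinAt
          have h3 : closure (Complex.HadamardThreeLines.verticalStrip (1 / 4) (1 / 2)) ⊆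
              Complex.HadamardThreeLines.verticalClosedStrip (1 / 4) (1 / 2) := by
            apply closure_minimal
            · intro w hw; exact ⟨hw.1.le, hw.2.le⟩
            · exact isClosed_Icc.preimage continuous_re
          linarith [(h3 hz).2])
        (by
          refine ⟨B, ?_⟩
          rintro _ ⟨z, hz, rfl⟩
          exact hbd z hz.1 (by linarith [hz.2]))
        (fun z hz => hbd z (by rw [show z.re = 1 / 4 from hz])
          (by rw [show z.re = 1 / 4 from hz]; norm_num)) (fun z hz => hline z hz)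
      refine h2.trans ?_
      have e : (s.re - 1 / 4) / (1 / 2 - 1 / 4) = 1 - 4 * (1 / 2 - s.re) := by ring
      rw [e, mul_comm, sub_sub_cancel]
      exact hAB _ (by linarith) (by linarith)
  -- Cauchy's estimate
  rw [← S_deriv_line]
  have h1 := norm_deriv_le_of_forall_mem_sphere_norm_le (f := S h) (c := 1 / 2 + (T : ℂ) * I) (R := δ)
    (C := Real.exp 1 * (C3 * (1 + |T|) ^ (κ + ε))) hδ0
    (by
      apply DifferentiableOn.diffContOnCl
      intro z hz
      rw [closure_ball _ hδ0.ne'] at hz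
      apply ((S_hasDerivAt h _).differentiableAt).differentiableWithinAt
      have h2 := (abs_re_le_norm (z - (1 / 2 + (T : ℂ) * I))).trans (by
        simpa [dist_eq_norm] using hz)
      have h3 : |z.re - 1 / 2| ≤ δ := by simpa using h2
      linarith [(abs_le.1 h3).2])
    (by
      intro z hz
      have hz' : ‖z - (1 / 2 + (T : ℂ) * I)‖ ≤ δ := by
        rw [mem_sphere_iff_norm] at hz; exact hz.le
      have h2 := hnear z hz'
      simp only [hG] at h2
      rw [norm_mul, norm_gauss] at h2
      have h3 : Real.exp (-1) ≤ Real.exp ((z.re - 1 / 2) ^ 2 - (z.im - T) ^ 2) := by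
        apply Real.exp_le_exp.2
        have h4 : |z.im - T| ≤ δ := by
          have := (abs_im_le_norm (z - (1 / 2 + (T : ℂ) * I))).trans hz'
          simpa using this
        have h5 := abs_le.1 h4
        nlinarith [sq_nonneg (z.re - 1 / 2)]
      have h4 : ‖S h z‖ * Real.exp (-1) ≤ C3 * (1 + |T|) ^ (κ + ε) :=
        (mul_le_mul_of_nonneg_left h3 (norm_nonneg _)).trans h2
      have h5 : Real.exp 1 * Real.exp (-1) = 1 := by rw [← Real.exp_add]; simp
      calc ‖S h z‖ = Real.exp 1 * (‖S h z‖ * Real.exp (-1)) := by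
            rw [mul_comm (‖S h z‖), ← mul_assoc, h5, one_mul]
        _ ≤ _ := by gcongr)
  refine h1.trans (le_of_eq ?_)
  ring

end Pool.Agent.R747.TL
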