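import Mathlib

set_option autoImplicit false

namespace Pool.Agent.R747.TL

/-- `ζ(1/2 + it)` -/
noncomputable def zl (t : ℝ) : ℂ := riemannZeta (1 / 2 + (t : ℂ) * Complex.I)

/-- `ζ(1/2 + it) = O((1 + |t|)^(κ + ε))` for every `ε > 0`; for `κ = 0` this is the Lindelöf
hypothesis. -/
def Exponent (κ : ℝ) : Prop := ∀ ε : ℝ, 0 < ε → ∃ C : ℝ, ∀ t : ℝ, ‖zl t‖ ≤ C * (1 + |t|) ^ (κ + ε)

/-- `ζ(1/2 + i(t + h)) - ζ(1/2 + it) = O((1 + |t|)^(κ + ε))` for every `ε > 0`. -/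
def Increments (h κ : ℝ) : Prop := ∀ ε : ℝ, 0 < ε → ∃ C : ℝ, ∀ t : ℝ,
  ‖zl (t + h) - zl t‖ ≤ C * (1 + |t|) ^ (κ + ε)

/-- `∫_t^{t+h} ζ(1/2 + iu) du = O((1 + |t|)^(κ + ε))` for every `ε > 0`. -/
def Means (h κ : ℝ) : Prop := ∀ ε : ℝ, 0 < ε → ∃ C : ℝ, ∀ t : ℝ,
  ‖∫ u in t..(t + h), zl u‖ ≤ C * (1 + |t|) ^ (κ + ε)

/-- There is `c > 0` such that `|q α - p| ≤ exp (- c q)` for some arbitrarily large natural numbers `q` and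
integers `p`. -/
def ExpApprox (α : ℝ) : Prop := ∃ c : ℝ, 0 < c ∧ ∀ Q : ℕ, ∃ q : ℕ, Q ≤ q ∧ ∃ p : ℤ,
  |(q : ℝ) * α - p| ≤ Real.exp (-(c * q))

/-- the distance of `x` to the nearest integer -/
noncomputable def dz (x : ℝ) : ℝ := |x - round x|

end Pool.Agent.R747.TL
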