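import Pool.Agent.R747.TL.C
import Pool.Agent.R747.TL.D

set_option autoImplicit false

open Complex Filter Topology Set

namespace Pool.Agent.R747.TL

noncomputable def LL (t : ℝ) : ℝ := Real.log (t / (2 * Real.pi)) / (2 * Real.pi)

lemma LL_tendsto : Tendsto LL atTop atTop := by
  have hp := Real.pi_pos
  apply Tendsto.atTop_div_const (by positivity)
  exact Real.tendsto_log_atTop.comp (tendsto_id.atTop_div_const (by positivity))

/-- the distances for two lengths, by an approximation of their quotient -/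
lemma two_dist {h h' : ℝ} (hh : h ≠ 0) {x : ℝ} (Q : ℕ) (hx : ((Q : ℝ) + 1) / |h| ≤ x) :
    ∃ q : ℕ, Q ≤ q ∧ (q : ℝ) ≤ |h| * x + 1 ∧ ∃ p : ℤ,
      |(q : ℝ) * (h' / h) - p| ≤ |h' / h| * dz (h * x) + dz (h' * x) := by
  have hh0 : 0 < |h| := abs_pos.2 hh
  set α : ℝ := h' / h with hαd
  set k : ℤ := round (h * x) with hk
  set k' : ℤ := round (h' * x) with hk'
  have hx0 : 0 ≤ x := le_trans (by positivity) hx
  have hkabs : |(k : ℝ) - h * x| ≤ 1 / 2 := by
    rw [abs_sub_comm]; exact abs_sub_round _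
  have hhL : (Q : ℝ) + 1 ≤ |h| * x := by
    rw [div_le_iff₀ hh0] at hx; linarith
  have habs : |h * x| = |h| * x := by rw [abs_mul, abs_of_nonneg hx0]
  have hkL : |(k : ℝ)| ≤ |h| * x + 1 := by
    have := abs_sub_abs_le_abs_sub (k : ℝ) (h * x)
    rw [habs] at this
    linarith
  have hkQ : (Q : ℝ) ≤ |(k : ℝ)| := by
    have := abs_sub_abs_le_abs_sub (h * x) (k : ℝ)
    rw [habs, abs_sub_comm] at this
    linarith
  have hqk : ((k.natAbs : ℕ) : ℝ) = |(k : ℝ)| := by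
    rw [Nat.cast_natAbs, Int.cast_abs]
  refine ⟨k.natAbs, ?_, ?_, ?_⟩
  · have : (Q : ℝ) ≤ (k.natAbs : ℕ) := by rw [hqk]; exact hkQ
    exact_mod_cast this
  · rw [hqk]; exact hkL
  · have e0 : ∃ p : ℤ, |((k.natAbs : ℕ) : ℝ) * α - p| = |(k : ℝ) * α - k'| := by
      rcases abs_cases (k : ℝ) with ⟨e, _⟩ | ⟨e, _⟩
      · exact ⟨k', by rw [hqk, e]⟩
      · refine ⟨-k', ?_⟩
        rw [hqk, e, show -(k : ℝ) * α - ((-k' : ℤ) : ℝ) = -((k : ℝ) * α - k') by push_cast; ring,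
          abs_neg]
    obtain ⟨p, hp'⟩ := e0
    refine ⟨p, ?_⟩
    rw [hp']
    have e1 : (k : ℝ) * α - k' = -(α * (h * x - k)) + (h' * x - k') := by
      rw [hαd]; field_simp; ring
    rw [e1]
    refine (abs_add_le _ _).trans ?_
    rw [abs_neg, abs_mul]
    exact le_refl _

/-- from a lower bound of the distances to a bound of `ζ` -/
lemma from_dist {h h' : ℝ} {f : ℝ → ℝ} (hf : ∀ t, 1 ≤ t → 1 ≤ f t) {c t1 : ℝ} (hc : 0 < c)
    (H : ∀ t : ℝ, t1 ≤ t → c ≤ f t * (|h' / h| * dz (h * LL t) + dz (h' * LL t))) :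
    ∃ C : ℝ, ∀ t : ℝ, 1 ≤ t → ‖zl t‖ ≤ C * f t * (1 + ‖zl (t + h) - zl t‖ + ‖zl (t + h') - zl t‖) := by
  obtain ⟨K, hK0, hK⟩ := key h
  obtain ⟨K', hK0', hK'⟩ := key h'
  set α : ℝ := |h' / h| with hα
  have hα0 : 0 ≤ α := abs_nonneg _
  set C1 : ℝ := (α * (1 + K) + (1 + K')) / c with hC1
  have hC10 : 0 ≤ C1 := by positivity
  refine ⟨max C1 (9 * (1 + |t1|)), fun t ht => ?_⟩
  set D := ‖zl (t + h) - zl t‖ with hD
  set D' := ‖zl (t + h') - zl t‖ with hD'
  have hD0 : 0 ≤ D := norm_nonneg _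
  have hD0' : 0 ≤ D' := norm_nonneg _
  have hft := hf t ht
  rcases le_total t t1 with h1 | h1
  · have h2 := zl_growth t
    have h3 : |t| ≤ |t1| := by
      rw [abs_of_nonneg (by linarith)]
      exact h1.trans (le_abs_self _)
    have h4 : 9 * (1 + |t|) ≤ max C1 (9 * (1 + |t1|)) := le_trans (by linarith) (le_max_right _ _)
    have h5 : 0 ≤ max C1 (9 * (1 + |t1|)) := hC10.trans (le_max_left _ _)
    calc ‖zl t‖ ≤ max C1 (9 * (1 + |t1|)) * 1 * 1 := by linarith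
      _ ≤ max C1 (9 * (1 + |t1|)) * f t * (1 + D + D') := by
          apply mul_le_mul (mul_le_mul_of_nonneg_left hft h5) (by linarith) (by norm_num)
          positivity
  · have a1 := hK t ht
    have a2 := hK' t ht
    rw [mul_div_assoc] at a1 a2
    change dz (h * LL t) * ‖zl t‖ ≤ _ at a1
    change dz (h' * LL t) * ‖zl t‖ ≤ _ at a2
    have hz : 0 ≤ ‖zl t‖ := norm_nonneg _
    have h2 : c * ‖zl t‖ ≤ f t * ((α * (1 + K) + (1 + K')) * (1 + D + D')) := by
      calc c * ‖zl t‖ ≤ f t * (α * dz (h * LL t) + dz (h' * LL t)) * ‖zl t‖ :=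
            mul_le_mul_of_nonneg_right (H t h1) hz
        _ = f t * (α * (dz (h * LL t) * ‖zl t‖) + dz (h' * LL t) * ‖zl t‖) := by ring
        _ ≤ f t * (α * (D / 2 + K) + (D' / 2 + K')) := by
            apply mul_le_mul_of_nonneg_left _ (by linarith)
            apply add_le_add (mul_le_mul_of_nonneg_left a1 hα0) a2
        _ ≤ f t * ((α * (1 + K) + (1 + K')) * (1 + D + D')) := by
            apply mul_le_mul_of_nonneg_left _ (by linarith)
            have b1 : D / 2 + K ≤ (1 + K) * (1 + D + D') := by nlinarith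
            have b2 : D' / 2 + K' ≤ (1 + K') * (1 + D + D') := by nlinarith
            calc α * (D / 2 + K) + (D' / 2 + K') ≤ α * ((1 + K) * (1 + D + D')) +
                  (1 + K') * (1 + D + D') := add_le_add (mul_le_mul_of_nonneg_left b1 hα0) b2
              _ = _ := by ring
    have h3 : ‖zl t‖ ≤ C1 * f t * (1 + D + D') := by
      rw [hC1, div_mul_eq_mul_div, div_mul_eq_mul_div, le_div_iff₀ hc]
      linarith
    refine h3.trans ?_
    have : C1 ≤ max C1 (9 * (1 + |t1|)) := le_max_left _ _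
    gcongr

/-- the inequality for two lengths -/
theorem core {h h' : ℝ} (hh : h ≠ 0) (hα : ¬ ExpApprox (h' / h)) (ε : ℝ) (hε : 0 < ε) :
    ∃ C : ℝ, ∀ t : ℝ, 1 ≤ t →
      ‖zl t‖ ≤ C * t ^ ε * (1 + ‖zl (t + h) - zl t‖ + ‖zl (t + h') - zl t‖) := by
  have hh0 : 0 < |h| := abs_pos.2 hh
  have hp := Real.pi_pos
  set c : ℝ := ε * (2 * Real.pi) / |h| with hc
  have hc0 : 0 < c := by positivity
  have hq : ∃ Q : ℕ, ∀ q : ℕ, Q ≤ q → ∀ p : ℤ, Real.exp (-(c * q)) < |(q : ℝ) * (h' / h) - p| := by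
    by_contra hcon
    push Not at hcon
    exact hα ⟨c, hc0, hcon⟩
  obtain ⟨Q, hQ⟩ := hq
  obtain ⟨t1, ht1⟩ := (tendsto_atTop.1 LL_tendsto (((Q : ℝ) + 1) / |h|)).exists_forall_of_atTop
  apply from_dist (f := fun t => t ^ ε) (fun t ht => Real.one_le_rpow ht hε.le)
    (c := Real.exp (-c) * (2 * Real.pi) ^ ε) (t1 := max t1 1) (by positivity)
  intro t ht
  have ht1' : t1 ≤ t := (le_max_left _ _).trans ht
  have ht0 : 1 ≤ t := (le_max_right _ _).trans ht
  obtain ⟨q, hq1, hq2, p, hq3⟩ := two_dist (h' := h') hh Q (ht1 t ht1')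
  have h1 := (hQ q hq1 p).le.trans hq3
  have ht00 : 0 < t := by linarith
  have ht' : 0 < t / (2 * Real.pi) := by positivity
  have h2 : Real.exp (-c) * (t / (2 * Real.pi)) ^ (-ε) ≤ Real.exp (-(c * q)) := by
    rw [Real.rpow_def_of_pos ht', ← Real.exp_add]
    apply Real.exp_le_exp.2
    have e2 : Real.log (t / (2 * Real.pi)) = 2 * Real.pi * LL t := by
      unfold LL; field_simp
    rw [e2]
    have e3 : 2 * Real.pi * LL t * -ε = -(c * (|h| * LL t)) := by
      rw [hc]; field_simp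
    rw [e3]
    have : c * (q : ℝ) ≤ c * (|h| * LL t + 1) := mul_le_mul_of_nonneg_left hq2 hc0.le
    linarith
  have e4 : t ^ ε * (t / (2 * Real.pi)) ^ (-ε) = (2 * Real.pi) ^ ε := by
    rw [Real.div_rpow ht00.le (by positivity), Real.rpow_neg ht00.le, Real.rpow_neg (by positivity)]
    have : 0 < t ^ ε := by positivity
    have : 0 < (2 * Real.pi) ^ ε := by positivity
    field_simp
  calc Real.exp (-c) * (2 * Real.pi) ^ ε = t ^ ε * (Real.exp (-c) * (t / (2 * Real.pi)) ^ (-ε)) := by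
        rw [← e4]; ring
    _ ≤ t ^ ε * (|h' / h| * dz (h * LL t) + dz (h' * LL t)) := by
        apply mul_le_mul_of_nonneg_left (h2.trans h1) (by positivity)

/-- the inequality for two lengths whose quotient is badly approximable of order `m` -/
theorem core_log {h h' : ℝ} (hh : h ≠ 0) {m : ℕ} {c : ℝ} (hc : 0 < c)
    (hα : ∀ q : ℕ, 0 < q → ∀ p : ℤ, c ≤ (q : ℝ) ^ m * |(q : ℝ) * (h' / h) - p|) :
    ∃ C : ℝ, ∀ t : ℝ, 1 ≤ t →
      ‖zl t‖ ≤ C * (1 + Real.log t) ^ m * (1 + ‖zl (t + h) - zl t‖ + ‖zl (t + h') - zl t‖) := by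
  have hh0 : 0 < |h| := abs_pos.2 hh
  have hp := Real.pi_pos
  obtain ⟨t1, ht1⟩ := (tendsto_atTop.1 LL_tendsto ((((1 : ℕ) : ℝ) + 1) / |h|)).exists_forall_of_atTop
  apply from_dist (f := fun t => (1 + Real.log t) ^ m)
    (fun t ht => one_le_pow₀ (by linarith [Real.log_nonneg ht]))
    (c := c / (|h| + 1) ^ m) (t1 := max t1 1) (by positivity)
  intro t ht
  have ht1' : t1 ≤ t := (le_max_left _ _).trans ht
  have ht0 : 1 ≤ t := (le_max_right _ _).trans ht
  obtain ⟨q, hq1, hq2, p, hq3⟩ := two_dist (h' := h') hh 1 (ht1 t ht1')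
  have h1 := hα q hq1 p
  have hlog := Real.log_nonneg ht0
  have h2 : (q : ℝ) ≤ (|h| + 1) * (1 + Real.log t) := by
    have h3 : LL t ≤ Real.log t := by
      unfold LL
      have h4 : Real.log (t / (2 * Real.pi)) ≤ Real.log t := by
        apply Real.log_le_log (by positivity)
        apply div_le_self (by linarith)
        linarith [Real.pi_gt_three]
      rw [div_le_iff₀ (by positivity)]
      nlinarith [Real.pi_gt_three]
    calc (q : ℝ) ≤ |h| * LL t + 1 := hq2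
      _ ≤ |h| * Real.log t + 1 := by gcongr
      _ ≤ _ := by nlinarith
  have h3 : (q : ℝ) ^ m ≤ (|h| + 1) ^ m * (1 + Real.log t) ^ m := by
    rw [← mul_pow]
    exact pow_le_pow_left₀ (Nat.cast_nonneg q) h2 m
  have hd : 0 ≤ |h' / h| * dz (h * LL t) + dz (h' * LL t) :=
    add_nonneg (mul_nonneg (abs_nonneg _) (dz_nonneg _)) (dz_nonneg _)
  rw [div_le_iff₀ (by positivity)]
  calc c ≤ (q : ℝ) ^ m * |(q : ℝ) * (h' / h) - p| := h1
    _ ≤ ((|h| + 1) ^ m * (1 + Real.log t) ^ m) * (|h' / h| * dz (h * LL t) + dz (h' * LL t)) := by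
        apply mul_le_mul h3 hq3 (abs_nonneg _) (by positivity)
    _ = _ := by ring

/-- `√2` is badly approximable -/
lemma sqrt_two_bad (q : ℕ) (hq : 0 < q) (p : ℤ) : 1 / 4 ≤ (q : ℝ) ^ 1 * |(q : ℝ) * (√2 / 1) - p| := by
  rw [div_one, pow_one]
  have hq0 : (0 : ℝ) < q := by exact_mod_cast hq
  have hq1 : (1 : ℝ) ≤ q := by exact_mod_cast hq
  have hs : √2 ^ 2 = 2 := Real.sq_sqrt (by norm_num)
  have hs0 : 0 ≤ √2 := Real.sqrt_nonneg 2
  have hs1 : √2 ≤ 3 / 2 := by nlinarith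
  by_cases hc : |(q : ℝ) * √2 - p| ≤ 1
  · have h1 : ((q : ℝ) * √2 - p) * ((q : ℝ) * √2 + p) = ((2 * (q : ℤ) ^ 2 - p ^ 2 : ℤ) : ℝ) := by
      push_cast
      nlinarith
    have h2 : (2 * (q : ℤ) ^ 2 - p ^ 2 : ℤ) ≠ 0 := by
      intro h0
      have h3 : ((q : ℝ) * √2 - p) * ((q : ℝ) * √2 + p) = 0 := by rw [h1, h0]; simp
      have h4 := irrational_sqrt_two
      rcases mul_eq_zero.1 h3 with h5 | h5
      · apply h4
        refine ⟨(p : ℚ) / q, ?_⟩
        push_cast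
        rw [div_eq_iff hq0.ne']; linarith
      · apply h4
        refine ⟨-(p : ℚ) / q, ?_⟩
        push_cast
        rw [div_eq_iff hq0.ne']; linarith
    have h3 : (1 : ℝ) ≤ |((2 * (q : ℤ) ^ 2 - p ^ 2 : ℤ) : ℝ)| := by
      have := Int.one_le_abs h2
      exact_mod_cast this
    rw [← h1, abs_mul] at h3
    have h4 : |(q : ℝ) * √2 + p| ≤ 4 * q := by
      have h5 : (q : ℝ) * √2 + p = 2 * ((q : ℝ) * √2) - ((q : ℝ) * √2 - p) := by ring
      rw [h5]
      refine (abs_sub _ _).trans ?_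
      rw [abs_of_nonneg (by positivity)]
      nlinarith
    nlinarith [abs_nonneg ((q : ℝ) * √2 - p)]
  · push Not at hc
    nlinarith

end Pool.Agent.R747.TL
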