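import Pool.Agent.R747.TL.B
import Pool.Agent.W188.Ray.A4

set_option autoImplicit false

open Complex Filter Topology Set

namespace Pool.Agent.R747.TL

lemma zdiff {s : ℂ} (hs : 0 < s.im) : DifferentiableAt ℂ riemannZeta s := by
  apply differentiableAt_riemannZeta
  intro h
  rw [h] at hs
  simp at hs

/-- bound of the increments to the right of the line -/
theorem right_incr {h κ : ℝ} (hκ : 0 ≤ κ) (H : Increments h κ) (ε : ℝ) (hε : 0 < ε) :
    ∃ C T0 : ℝ, 0 ≤ C ∧ ∀ T : ℝ, T0 ≤ T → ∀ x : ℝ, 1 / 2 ≤ x → x ≤ 2 →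
      ‖riemannZeta (x + ((T + h : ℝ) : ℂ) * I) - riemannZeta (x + (T : ℂ) * I)‖ ≤ C * T ^ (κ + ε) := by
  obtain ⟨C0, hC0'⟩ := H ε hε
  set C1 := max C0 0 with hC1
  have hC1' : 0 ≤ C1 := le_max_right _ _
  have hC0 : ∀ t : ℝ, ‖zl (t + h) - zl t‖ ≤ C1 * (1 + |t|) ^ (κ + ε) := fun t =>
    (hC0' t).trans (by gcongr; exact le_max_left _ _)
  -- growth
  have hgr : ∀ᶠ T : ℝ in atTop, 24 * (2 * T + |h| + 2) * Real.exp (3 - (T / 2) ^ 2) ≤ 1 := by
    have h1 : Tendsto (fun T : ℝ => (T ^ 1 * Real.exp (-T)) * (24 * (4 + |h|) * Real.exp 3)) atTop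
        (𝓝 (0 * (24 * (4 + |h|) * Real.exp 3))) :=
      (Real.tendsto_pow_mul_exp_neg_atTop_nhds_zero 1).mul_const _
    rw [zero_mul] at h1
    filter_upwards [h1.eventually_le_const (one_pos : (0:ℝ) < 1), eventually_ge_atTop (4:ℝ)] with T hT hT4
    refine le_trans ?_ hT
    have e1 : Real.exp (3 - (T / 2) ^ 2) ≤ Real.exp 3 * Real.exp (-T) := by
      rw [← Real.exp_add]
      apply Real.exp_le_exp.2
      nlinarith
    have h2 : 2 * T + |h| + 2 ≤ (4 + |h|) * T := by nlinarith [abs_nonneg h]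
    calc 24 * (2 * T + |h| + 2) * Real.exp (3 - (T / 2) ^ 2)
        ≤ 24 * ((4 + |h|) * T) * (Real.exp 3 * Real.exp (-T)) := by
          apply mul_le_mul (by linarith) e1 (Real.exp_pos _).le (by positivity)
      _ = _ := by ring
  obtain ⟨T1, hT1⟩ := hgr.exists_forall_of_atTop
  set C : ℝ := C1 * 2 ^ (κ + ε) + 4 * Real.exp 3 + 1 with hC
  refine ⟨C, max T1 (max 8 (4 * |h| + 4)), by positivity, ?_⟩
  intro T hT x hx1 hx2
  have hTT1 : T1 ≤ T := (le_max_left _ _).trans hT
  have hT8 : 8 ≤ T := ((le_max_left _ _).trans (le_max_right _ _)).trans hT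
  have hTh : 4 * |h| + 4 ≤ T := ((le_max_right _ _).trans (le_max_right _ _)).trans hT
  have hT0 : 0 < T := by linarith
  have hpowT : 1 ≤ T ^ (κ + ε) := Real.one_le_rpow (by linarith) (by linarith)
  -- the function
  set f : ℂ → ℂ := fun s => (riemannZeta (s + (h : ℂ) * I) - riemannZeta s) *
    cexp ((s - (1 / 2 + (T : ℂ) * I)) ^ 2) with hf
  have hnorm : ∀ s : ℂ, ‖f s‖ = ‖riemannZeta (s + (h : ℂ) * I) - riemannZeta s‖ *
      Real.exp ((s.re - 1 / 2) ^ 2 - (s.im - T) ^ 2) := by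
    intro s
    simp only [hf]
    rw [norm_mul, Complex.norm_exp]
    congr 2
    rw [sq, mul_re]
    simp
    ring
  set U : Set ℂ := Ioo (1 / 2 : ℝ) 2 ×ℂ Ioo (T / 2) (3 * T / 2) with hU
  have hcl : closure U = Icc (1 / 2 : ℝ) 2 ×ℂ Icc (T / 2) (3 * T / 2) := by
    rw [hU, Complex.closure_reProdIm, closure_Ioo (by norm_num), closure_Ioo (by linarith)]
  have hfr : ∀ z ∈ frontier U, (1 / 2 ≤ z.re ∧ z.re ≤ 2 ∧ T / 2 ≤ z.im ∧ z.im ≤ 3 * T / 2) ∧
      (z.re = 1 / 2 ∨ z.re = 2 ∨ z.im = T / 2 ∨ z.im = 3 * T / 2) := by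
    intro z hz
    have hUo : IsOpen U := isOpen_Ioo.reProdIm isOpen_Ioo
    rw [frontier, hcl, hUo.interior_eq] at hz
    obtain ⟨⟨hz1, hz2⟩, hz3⟩ := hz
    have a1 : z.re ∈ Icc (1 / 2 : ℝ) 2 := hz1
    have a2 : z.im ∈ Icc (T / 2) (3 * T / 2) := hz2
    refine ⟨⟨a1.1, a1.2, a2.1, a2.2⟩, ?_⟩
    by_contra hcon
    push Not at hcon
    apply hz3
    exact ⟨⟨lt_of_le_of_ne a1.1 (Ne.symm hcon.1), lt_of_le_of_ne a1.2 hcon.2.1⟩,
      ⟨lt_of_le_of_ne a2.1 (Ne.symm hcon.2.2.1), lt_of_le_of_ne a2.2 hcon.2.2.2⟩⟩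
  have hbdd : Bornology.IsBounded U := by
    apply Bornology.IsBounded.reProdIm (Metric.isBounded_Ioo _ _) (Metric.isBounded_Ioo _ _)
  have hd : DiffContOnCl ℂ f U := by
    apply DifferentiableOn.diffContOnCl
    intro z hz
    rw [hcl] at hz
    have a2 : z.im ∈ Icc (T / 2) (3 * T / 2) := hz.2
    have b1 := neg_abs_le h
    have b2 : 0 < z.im := by linarith [a2.1]
    have b3 : 0 < (z + (h : ℂ) * I).im := by
      simp
      linarith [a2.1]
    apply DifferentiableAt.differentiableWithinAt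
    simp only [hf]
    apply DifferentiableAt.mul
    · apply DifferentiableAt.sub
      · exact DifferentiableAt.comp (f := fun s : ℂ => s + (h : ℂ) * I) z (zdiff b3) (by fun_prop)
      · exact zdiff b2
    · fun_prop
  have hboundary : ∀ z ∈ frontier U, ‖f z‖ ≤ C * T ^ (κ + ε) := by
    intro z hz
    obtain ⟨⟨a1, a2, a3, a4⟩, hcase⟩ := hfr z hz
    rw [hnorm]
    have b1 := neg_abs_le h
    have b2 := le_abs_self h
    have hex : (z.re - 1 / 2) ^ 2 ≤ 3 := by nlinarith
    rcases hcase with hc | hc | hc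
    · -- the line
      have e : z = 1 / 2 + (z.im : ℂ) * I := by
        apply Complex.ext <;> simp [hc]
      have h1 := hC0 z.im
      have e1 : riemannZeta (z + (h : ℂ) * I) - riemannZeta z = zl (z.im + h) - zl z.im := by
        unfold zl
        rw [← e]
        congr 2
        rw [e]
        push_cast
        simp
        ring
      rw [e1, hc]
      have h2 : Real.exp ((1 / 2 - 1 / 2) ^ 2 - (z.im - T) ^ 2) ≤ 1 := by
        rw [Real.exp_le_one_iff]; nlinarith [sq_nonneg (z.im - T)]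
      have h3 : (1 + |z.im|) ^ (κ + ε) ≤ 2 ^ (κ + ε) * T ^ (κ + ε) := by
        rw [← Real.mul_rpow (by norm_num) hT0.le]
        apply Real.rpow_le_rpow (by positivity) _ (by linarith)
        rw [abs_of_nonneg (by linarith)]
        linarith
      calc ‖zl (z.im + h) - zl z.im‖ * Real.exp ((1 / 2 - 1 / 2) ^ 2 - (z.im - T) ^ 2)
          ≤ (C1 * (2 ^ (κ + ε) * T ^ (κ + ε))) * 1 := by
            apply mul_le_mul (h1.trans (by gcongr)) h2 (Real.exp_pos _).le (by positivity)
        _ ≤ C * T ^ (κ + ε) := by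
            rw [hC]
            have : 0 ≤ (4 * Real.exp 3 + 1) * T ^ (κ + ε) := by positivity
            nlinarith
    · -- the right side
      have h1 : ‖riemannZeta (z + (h : ℂ) * I) - riemannZeta z‖ ≤ 4 := by
        refine (norm_sub_le _ _).trans ?_
        have c1 := Pool.Agent.W188.Ray.norm_zeta_le_two (s := z) (by rw [hc])
        have c2 := Pool.Agent.W188.Ray.norm_zeta_le_two (s := z + (h : ℂ) * I) (by simp [hc])
        linarith
      have h2 : Real.exp ((z.re - 1 / 2) ^ 2 - (z.im - T) ^ 2) ≤ Real.exp 3 := by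
        apply Real.exp_le_exp.2
        nlinarith [sq_nonneg (z.im - T)]
      calc _ ≤ 4 * Real.exp 3 := mul_le_mul h1 h2 (Real.exp_pos _).le (by norm_num)
        _ ≤ C * 1 := by
          rw [hC]
          have : 0 ≤ C1 * 2 ^ (κ + ε) := by positivity
          linarith
        _ ≤ C * T ^ (κ + ε) := by gcongr
    · -- top and bottom
      have h1 : ‖riemannZeta (z + (h : ℂ) * I) - riemannZeta z‖ ≤ 24 * (2 * T + |h| + 2) := by
        refine (norm_sub_le _ _).trans ?_
        have c1 := Pool.Agent.H388LH.zeta_growth (s := z) (by linarith) (by linarith)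
        have c2 := Pool.Agent.H388LH.zeta_growth (s := z + (h : ℂ) * I) (by simp; linarith)
          (by simp; linarith)
        have c3 := Pool.Agent.W188.Ray.norm_le_re_im (s := z) (a := 2) (b := 2 * T) (by linarith) a2
          (by linarith) (by linarith)
        have c4 := Pool.Agent.W188.Ray.norm_le_re_im (s := z + (h : ℂ) * I) (a := 2) (b := 2 * T + |h|)
          (by simp; linarith) (by simpa using a2) (by simp; linarith) (by simp; linarith)
        have := abs_nonneg h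
        linarith
      have hsq : (z.im - T) ^ 2 = (T / 2) ^ 2 := by
        rcases hc with hc | hc <;> rw [hc] <;> ring
      have h2 : Real.exp ((z.re - 1 / 2) ^ 2 - (z.im - T) ^ 2) ≤ Real.exp (3 - (T / 2) ^ 2) := by
        apply Real.exp_le_exp.2
        rw [hsq]; linarith
      calc _ ≤ 24 * (2 * T + |h| + 2) * Real.exp (3 - (T / 2) ^ 2) :=
            mul_le_mul h1 h2 (Real.exp_pos _).le (by positivity)
        _ ≤ 1 := hT1 T hTT1
        _ ≤ C * 1 := by
          rw [hC]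
          have : 0 ≤ C1 * 2 ^ (κ + ε) := by positivity
          have := Real.exp_pos 3
          linarith
        _ ≤ C * T ^ (κ + ε) := by gcongr
  have hmax := Complex.norm_le_of_forall_mem_frontier_norm_le hbdd hd hboundary
    (z := (x : ℂ) + (T : ℂ) * I) (by
      rw [hcl]
      refine ⟨?_, ?_⟩
      · show ((x : ℂ) + (T : ℂ) * I).re ∈ Icc (1 / 2 : ℝ) 2
        simp only [add_re, ofReal_re, mul_re, I_re, mul_zero, ofReal_im, I_im, mul_one, sub_self,
          add_zero]
        exact ⟨hx1, hx2⟩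
      · show ((x : ℂ) + (T : ℂ) * I).im ∈ Icc (T / 2) (3 * T / 2)
        simp only [add_im, ofReal_im, mul_im, ofReal_re, I_im, mul_one, I_re, mul_zero, add_zero,
          zero_add]
        exact ⟨by linarith, by linarith⟩)
  rw [hnorm] at hmax
  have e2 : (x : ℂ) + (T : ℂ) * I + (h : ℂ) * I = x + ((T + h : ℝ) : ℂ) * I := by push_cast; ring
  rw [e2] at hmax
  have h3 : 1 ≤ Real.exp ((((x : ℂ) + (T : ℂ) * I).re - 1 / 2) ^ 2 - (((x : ℂ) + (T : ℂ) * I).im - T) ^ 2) := by
    apply Real.one_le_exp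
    simp
    positivity
  calc ‖riemannZeta (x + ((T + h : ℝ) : ℂ) * I) - riemannZeta (x + (T : ℂ) * I)‖
      = ‖riemannZeta (x + ((T + h : ℝ) : ℂ) * I) - riemannZeta (x + (T : ℂ) * I)‖ * 1 := by ring
    _ ≤ _ := mul_le_mul_of_nonneg_left h3 (norm_nonneg _)
    _ ≤ _ := hmax

/-- the mean for large `T` -/
theorem means_large {h κ : ℝ} (hκ : 0 ≤ κ) (H : Increments h κ) (ε : ℝ) (hε : 0 < ε) :
    ∃ C T0 : ℝ, 0 ≤ C ∧ ∀ T : ℝ, T0 ≤ T → ‖∫ u in T..(T + h), zl u‖ ≤ C * T ^ (κ + ε) := by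
  obtain ⟨C, T0, hC0, hC⟩ := right_incr hκ H ε hε
  refine ⟨2 * |h| + 2 * C, max T0 (4 * |h| + 4), by positivity, ?_⟩
  intro T hT
  have hTT0 : T0 ≤ T := (le_max_left _ _).trans hT
  have hTh : 4 * |h| + 4 ≤ T := (le_max_right _ _).trans hT
  have hh0 := abs_nonneg h
  have b1 := neg_abs_le h
  have b2 := le_abs_self h
  have hT1 : 1 ≤ T := by linarith
  have hpowT : 1 ≤ T ^ (κ + ε) := Real.one_le_rpow hT1 (by linarith)
  have hrect := Complex.integral_boundary_rect_eq_zero_of_differentiableOn riemannZeta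
    (1 / 2 + (T : ℂ) * I) (2 + ((T + h : ℝ) : ℂ) * I) (by
      intro z hz
      have hz2 : z.im ∈ uIcc T (T + h) := by
        have := hz.2
        simpa using this
      apply (zdiff _).differentiableWithinAt
      rw [Set.mem_uIcc] at hz2
      rcases hz2 with h1 | h1 <;> linarith [h1.1])
  have r1 : (1 / 2 + (T : ℂ) * I).re = 1 / 2 := by simp
  have r2 : (1 / 2 + (T : ℂ) * I).im = T := by simp
  have r3 : (2 + ((T + h : ℝ) : ℂ) * I).re = 2 := by simp
  have r4 : (2 + ((T + h : ℝ) : ℂ) * I).im = T + h := by simp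
  rw [r1, r2, r3, r4] at hrect
  have e1 : (∫ y in T..(T + h), riemannZeta (((1 / 2 : ℝ) : ℂ) + (y : ℂ) * I)) = ∫ u in T..(T + h), zl u := by
    unfold zl
    simp
  rw [e1] at hrect
  -- integrability on the horizontal sides
  have hint : ∀ y : ℝ, 1 ≤ y → IntervalIntegrable (fun x : ℝ => riemannZeta ((x : ℂ) + (y : ℂ) * I))
      MeasureTheory.volume (1 / 2) 2 := by
    intro y hy
    apply Continuous.intervalIntegrable
    rw [continuous_iff_continuousAt]
    intro x
    have h1 : ContinuousAt riemannZeta ((x : ℂ) + (y : ℂ) * I) :=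
      (zdiff (by simp; linarith)).continuousAt
    exact ContinuousAt.comp (f := fun x : ℝ => (x : ℂ) + (y : ℂ) * I) h1 (by fun_prop)
  have e2 : (∫ x in (1 / 2 : ℝ)..2, riemannZeta ((x : ℂ) + (T : ℂ) * I)) -
      (∫ x in (1 / 2 : ℝ)..2, riemannZeta ((x : ℂ) + ((T + h : ℝ) : ℂ) * I)) =
      ∫ x in (1 / 2 : ℝ)..2, (riemannZeta ((x : ℂ) + (T : ℂ) * I) -
        riemannZeta ((x : ℂ) + ((T + h : ℝ) : ℂ) * I)) := by
    rw [intervalIntegral.integral_sub (hint T hT1) (hint (T + h) (by linarith))]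
  rw [e2] at hrect
  have n1 : ‖∫ x in (1 / 2 : ℝ)..2, (riemannZeta ((x : ℂ) + (T : ℂ) * I) -
        riemannZeta ((x : ℂ) + ((T + h : ℝ) : ℂ) * I))‖ ≤ (C * T ^ (κ + ε)) * |2 - 1 / 2| := by
    apply intervalIntegral.norm_integral_le_of_norm_le_const
    intro x hx
    rw [Set.uIoc_of_le (by norm_num)] at hx
    rw [norm_sub_rev]
    exact hC T hTT0 x hx.1.le hx.2
  have n2 : ‖∫ y in T..(T + h), riemannZeta (((2 : ℝ) : ℂ) + (y : ℂ) * I)‖ ≤ 2 * |T + h - T| := by
    apply intervalIntegral.norm_integral_le_of_norm_le_const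
    intro y _
    exact Pool.Agent.W188.Ray.norm_zeta_le_two (by simp)
  have n3 : |(2 : ℝ) - 1 / 2| = 3 / 2 := by norm_num [abs_of_pos]
  rw [n3] at n1
  rw [show T + h - T = h by ring] at n2
  have e3 : I • (∫ u in T..(T + h), zl u) = (∫ x in (1 / 2 : ℝ)..2, (riemannZeta ((x : ℂ) + (T : ℂ) * I) -
        riemannZeta ((x : ℂ) + ((T + h : ℝ) : ℂ) * I))) +
        I • (∫ y in T..(T + h), riemannZeta (((2 : ℝ) : ℂ) + (y : ℂ) * I)) := by
    have := sub_eq_zero.1 hrect
    exact this.symm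
  have e4 : ‖∫ u in T..(T + h), zl u‖ = ‖I • (∫ u in T..(T + h), zl u)‖ := by
    rw [norm_smul, norm_I, one_mul]
  rw [e4, e3]
  refine (norm_add_le _ _).trans ?_
  rw [norm_smul, norm_I, one_mul]
  calc _ ≤ (C * T ^ (κ + ε)) * (3 / 2) + 2 * |h| := add_le_add n1 n2
    _ ≤ (2 * |h| + 2 * C) * T ^ (κ + ε) := by
      have : 0 ≤ C * T ^ (κ + ε) := by positivity
      nlinarith

theorem incr_means {h κ : ℝ} (hκ : 0 ≤ κ) (H : Increments h κ) : Means h κ := by
  intro ε hε
  obtain ⟨C, T0, hC0, hC⟩ := means_large hκ H ε hε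
  obtain ⟨C', T0', hC0', hC'⟩ := means_large hκ (incr_neg hκ H) ε hε
  set M : ℝ := max (max T0 T0') 1 with hM
  have hcont : Continuous (fun t : ℝ => ∫ u in t..(t + h), zl u) := by
    have hc := zl_cont
    have e : (fun x : ℝ => ∫ u in x..(x + h), zl u) =
        fun x : ℝ => (∫ u in (0:ℝ)..(x + h), zl u) - ∫ u in (0:ℝ)..x, zl u := by
      ext x
      rw [intervalIntegral.integral_interval_sub_left (hc.intervalIntegrable _ _)
        (hc.intervalIntegrable _ _)]
    rw [e]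
    have h1 : Continuous fun x : ℝ => ∫ u in (0:ℝ)..x, zl u :=
      intervalIntegral.continuous_primitive (fun a b => hc.intervalIntegrable a b) 0
    exact (h1.comp (by fun_prop : Continuous fun x : ℝ => x + h)).sub h1
  obtain ⟨B, hB⟩ := (isCompact_Icc (a := -M) (b := M)).exists_bound_of_continuousOn hcont.continuousOn
  have hM0 : 1 ≤ M := le_max_right _ _
  have hB0 : 0 ≤ B := (norm_nonneg _).trans (hB 0 ⟨by linarith, by linarith⟩)
  refine ⟨C + C' + B, fun t => ?_⟩
  have h1 : 1 ≤ (1 + |t|) ^ (κ + ε) := Real.one_le_rpow (by linarith [abs_nonneg t]) (by linarith)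
  rcases le_total |t| M with ht | ht
  · have h2 := hB t (abs_le.1 ht)
    calc _ ≤ B * 1 := by linarith
      _ ≤ (C + C' + B) * (1 + |t|) ^ (κ + ε) := by
        apply mul_le_mul (by linarith) h1 (by norm_num) (by positivity)
  · have hpow : |t| ^ (κ + ε) ≤ (1 + |t|) ^ (κ + ε) :=
      Real.rpow_le_rpow (abs_nonneg t) (by linarith) (by linarith)
    have hp0 : 0 ≤ |t| ^ (κ + ε) := by positivity
    rcases le_total 0 t with h0 | h0
    · rw [abs_of_nonneg h0] at ht hpow hp0 ⊢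
      have h2 := hC t (((le_max_left _ _).trans (le_max_left _ _)).trans ht)
      calc _ ≤ C * t ^ (κ + ε) := h2
        _ ≤ (C + C' + B) * (1 + t) ^ (κ + ε) := by
          apply mul_le_mul (by linarith) hpow hp0 (by positivity)
    · rw [abs_of_nonpos h0] at ht hpow hp0 ⊢
      have h2 := hC' (-t) (((le_max_right _ _).trans (le_max_left _ _)).trans ht)
      have e : ‖∫ u in t..(t + h), zl u‖ = ‖∫ u in (-t)..(-t + -h), zl u‖ := by
        have e1 : (∫ u in (-t)..(-t + -h), zl u) = -∫ u in t..(t + h), zl (-u) := by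
          have := intervalIntegral.integral_comp_neg (a := t) (b := t + h) (f := zl)
          rw [this, neg_add, ← intervalIntegral.integral_symm]
        rw [e1, norm_neg]
        have e2 : (∫ u in t..(t + h), zl (-u)) = (starRingEnd ℂ) (∫ u in t..(t + h), zl u) := by
          simp only [intervalIntegral, map_sub, ← integral_conj, zl_conj]
        rw [e2, Complex.norm_conj]
      rw [e]
      calc _ ≤ C' * (-t) ^ (κ + ε) := h2
        _ ≤ (C + C' + B) * (1 + -t) ^ (κ + ε) := by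
          apply mul_le_mul (by linarith) hpow hp0 (by positivity)

end Pool.Agent.R747.TL
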